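import Pool.Agent.Run7.h954.FP.Dom
set_option autoImplicit false

/-!
Matrices which are close to nonsingular diagonal matrices.
-/

namespace Pool.Agent.Run7.h954.MX

open Pool.Agent.Run7.h954.FP (exists_pos_le)

/-- matrices close to a nonsingular diagonal matrix -/
theorem exists_det' {ι : Type*} [Fintype ι] [DecidableEq ι] {q : ι → ℝ} (hq : ∀ i, q i ≠ 0) :
    ∃ ε : ℝ, 0 < ε ∧ ∀ (M : Matrix ι ι ℝ) (τ : ℝ), τ ≠ 0 →
      (∀ i j, |M i j / τ - (if i = j then q i else 0)| ≤ ε) → M.det ≠ 0 := by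
  obtain ⟨m, hm, hmle⟩ := exists_pos_le (r := fun i => |q i|) fun i => abs_pos.2 (hq i)
  obtain ⟨c, hc⟩ : ∃ c : ℝ, c = ((Fintype.card ι : ℕ) : ℝ) := ⟨_, rfl⟩
  have hc0 : 0 ≤ c := by rw [hc]; exact Nat.cast_nonneg _
  refine ⟨m / (2 * (c + 1)), by positivity, fun M τ hτ h => ?_⟩
  have hτ0 : 0 < |τ| := abs_pos.2 hτ
  set ε : ℝ := m / (2 * (c + 1)) with hε
  have hε1 : ε * (2 * (c + 1)) = m := by
    rw [hε]
    field_simp
  have hε0 : 0 < ε := by positivity
  refine det_ne_zero_of_sum_row_lt_diag fun k => ?_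
  have h1 : ∀ j ∈ Finset.univ.erase k, ‖M k j‖ ≤ ε * |τ| := by
    intro j hj
    have h2 := h k j
    rw [if_neg (Finset.ne_of_mem_erase hj).symm, sub_zero, abs_div, div_le_iff₀ hτ0] at h2
    exact h2
  have h2 : (m - ε) * |τ| ≤ ‖M k k‖ := by
    have h3 := h k k
    rw [if_pos rfl] at h3
    have h4 : m - ε ≤ |M k k / τ| := by
      have h5 := abs_sub_abs_le_abs_sub (q k) (M k k / τ)
      rw [abs_sub_comm] at h5
      have h6 := hmle k
      linarith
    rw [abs_div, le_div_iff₀ hτ0] at h4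
    exact h4
  have h3 : ∑ j ∈ Finset.univ.erase k, ‖M k j‖ ≤ c * (ε * |τ|) := by
    refine (Finset.sum_le_sum h1).trans ?_
    rw [Finset.sum_const, nsmul_eq_mul]
    refine mul_le_mul_of_nonneg_right ?_ (by positivity)
    rw [hc]
    exact_mod_cast Finset.card_le_univ _
  have h4 : c * (ε * |τ|) < (m - ε) * |τ| := by
    have h5 : 0 < ε * |τ| := by positivity
    have h6 : (m - ε) * |τ| = (2 * c + 1) * (ε * |τ|) := by
      rw [← hε1]
      ring
    rw [h6]
    nlinarith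
  linarith

end Pool.Agent.Run7.h954.MX
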