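import Pool.Agent.Run7.h954.FP.PDefs
set_option autoImplicit false

/-!
Groups of polynomials with a common leading form: definitions, valuations, and the symbols on the
hypersurfaces `λ ∏ L = 1` are unramified.
-/

namespace Pool.Agent.Run7.h954.MX

open Pool.Agent.TH826.MK (KQ symb Unramified Torus)

/-- The weight of the monomial `x^d`. -/
def wgt {N : ℕ} (wt : Fin N → ℕ) (d : Fin N →₀ ℕ) : ℕ := ∑ j, wt j * d j

/-- The data of `q` groups of polynomials `L_{k,0}, ..., L_{k,r_k}` in `N` variables with the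
leading forms `G_k ^ a_{k,i}`. -/
structure Data (K : Type*) [Field K] (N q : ℕ) where
  /-- the weights of the variables -/
  wt : Fin N → ℕ
  /-- the forms `G_k` -/
  G : Fin q → MvPolynomial (Fin N) K
  /-- the weights of the forms `G_k` -/
  e : Fin q → ℕ
  /-- the numbers of polynomials minus one -/
  r : Fin q → ℕ
  /-- the polynomials -/
  L : ∀ k, Fin (r k + 1) → MvPolynomial (Fin N) K
  /-- the exponents -/
  a : ∀ k, Fin (r k + 1) → ℕ

variable {K : Type*} [Field K] {N q : ℕ}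

/-- The weights are positive, the `G_k` are weighted homogeneous, all coefficients are integral,
`L_{k,i}` is `G_k ^ a_{k,i}`, `a_{k,i} > 0`, plus terms of smaller weight, and any `N` different forms
`G_k` have no common zeros except for the origin, also modulo all primes: powers of the variables
are linear combinations of them, with coefficients which are polynomials with integral
coefficients. -/
structure Data.Adm (D : Data K N q) : Prop where
  /-- positive weights -/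
  wpos : ∀ j, 0 < D.wt j
  /-- the forms are weighted homogeneous -/
  hom : ∀ k d, (D.G k).coeff d ≠ 0 → wgt D.wt d = D.e k
  /-- integral coefficients -/
  intG : ∀ k d, IsIntegral ℤ ((D.G k).coeff d)
  /-- integral coefficients -/
  intL : ∀ k i d, IsIntegral ℤ ((D.L k i).coeff d)
  /-- the leading forms -/
  low : ∀ k i d, (D.L k i - D.G k ^ D.a k i).coeff d ≠ 0 → wgt D.wt d < D.e k * D.a k i
  /-- positive exponents -/
  apos : ∀ k i, 0 < D.a k i
  /-- no common zeros -/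
  cop : ∀ S : Fin N → Fin q, Function.Injective S → ∀ j, ∃ (M : ℕ)
    (A : Fin N → MvPolynomial (Fin N) K), (∀ i d, IsIntegral ℤ ((A i).coeff d)) ∧
      (∀ i d, (A i).coeff d ≠ 0 → wgt D.wt d + D.e (S i) ≤ D.wt j * M) ∧
      ∑ i, A i * D.G (S i) = MvPolynomial.X j ^ M

/-- The product of all the polynomials. -/
noncomputable def Data.F (D : Data K N q) : MvPolynomial (Fin N) K :=
  ∏ y : (Σ k, Fin (D.r k + 1)), D.L y.1 y.2

/-- The coordinate ring of the hypersurface `λ ∏_k ∏_i L_{k,i} = 1`. -/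
def Data.XRing (D : Data K N q) (lam : K) : Type _ :=
  MvPolynomial (Fin N) K ⧸ Ideal.span {MvPolynomial.C lam * D.F - 1}

noncomputable instance Data.instXRing (D : Data K N q) (lam : K) : CommRing (D.XRing lam) :=
  Ideal.Quotient.commRing (Ideal.span {MvPolynomial.C lam * D.F - 1})

/-- The restriction of polynomials to the hypersurface. -/
noncomputable def Data.xmk (D : Data K N q) (lam : K) :
    MvPolynomial (Fin N) K →+* D.XRing lam :=
  Ideal.Quotient.mk (Ideal.span {MvPolynomial.C lam * D.F - 1})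

/-- The constants. -/
noncomputable def Data.xcst (D : Data K N q) (lam : K) : K →+* D.XRing lam :=
  (D.xmk lam).comp MvPolynomial.C

theorem Data.xmk_eqn (D : Data K N q) (lam : K) :
    D.xcst lam lam * ∏ y : (Σ k, Fin (D.r k + 1)), D.xmk lam (D.L y.1 y.2) = 1 := by
  have h : D.xmk lam (MvPolynomial.C lam * D.F - 1) = 0 :=
    Ideal.Quotient.eq_zero_iff_mem.2 (Ideal.subset_span rfl)
  rw [map_sub, map_one, sub_eq_zero, map_mul] at h
  unfold Data.F at h
  rw [map_prod] at h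
  exact h

theorem Data.isUnit_L (D : Data K N q) (lam : K) (k : Fin q) (i : Fin (D.r k + 1)) :
    IsUnit (D.xmk lam (D.L k i)) := by
  refine isUnit_of_dvd_one ?_
  rw [← D.xmk_eqn lam]
  refine Dvd.dvd.mul_left ?_ _
  exact Finset.dvd_prod_of_mem (fun y : (Σ k, Fin (D.r k + 1)) => D.xmk lam (D.L y.1 y.2))
    (Finset.mem_univ ⟨k, i⟩)

/-- The units `L_{k,i}`. -/
noncomputable def Data.Lu (D : Data K N q) (lam : K) (k : Fin q) (i : Fin (D.r k + 1)) :
    (D.XRing lam)ˣ := (D.isUnit_L lam k i).unit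

/-- The units `u_{k,i} = L_{k,i}^{a_{k,0}} / L_{k,0}^{a_{k,i}}`, `1 ≤ i ≤ r_k`. -/
noncomputable def Data.u (D : Data K N q) (lam : K) (y : Σ k, Fin (D.r k)) :
    (D.XRing lam)ˣ := D.Lu lam y.1 y.2.succ ^ D.a y.1 0 / D.Lu lam y.1 0 ^ D.a y.1 y.2.succ

/-- The set of the `((k_1, i_1), ..., (k_N, i_N))` with `k_1 < ... < k_N` and `1 ≤ i_j ≤ r_{k_j}`
(the index `i ≥ 1` is the successor of an element of `Fin r_k`). -/
def Data.Idx (D : Data K N q) : Type :=
  {t : Fin N → (Σ k, Fin (D.r k)) // StrictMono fun j => (t j).1}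

noncomputable instance Data.instFintypeIdx (D : Data K N q) : Fintype D.Idx :=
  @Subtype.fintype _ _ (Classical.decPred _) _

/-- The symbols `{u_{k_1,i_1}, ..., u_{k_N,i_N}}`. -/
noncomputable def Data.sym (D : Data K N q) (lam : K) (t : D.Idx) : KQ (D.XRing lam) N :=
  symb fun j => D.u lam (t.1 j)

/-- For every index `t` there is a common complex zero (over `σ`) of the polynomials
`L_{k_j,i_j}`, `1 ≤ j ≤ N`, at which their Jacobian determinant and the other polynomials do not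
vanish. -/
def Data.Zeros (D : Data K N q) (σ : K →+* ℂ) : Prop :=
  ∀ t : D.Idx, ∃ p : Fin N → ℂ,
    (∀ j, MvPolynomial.eval₂ σ p (D.L (t.1 j).1 (t.1 j).2.succ) = 0) ∧
    (Matrix.of fun j l => MvPolynomial.eval₂ σ p
      (MvPolynomial.pderiv l (D.L (t.1 j).1 (t.1 j).2.succ))).det ≠ 0 ∧
    ∀ y : (Σ k, Fin (D.r k + 1)), (∀ j, y ≠ ⟨(t.1 j).1, (t.1 j).2.succ⟩) →
      MvPolynomial.eval₂ σ p (D.L y.1 y.2) ≠ 0

section val

open scoped WithZero

open Pool.Agent.TH826.MK

open Pool.Agent.N65.TL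

open Pool.Agent.N65.TD

open Pool.Agent.Run7.h954.FP (mem_of_pow quot_close)

variable {L : Type*} [Field L] {v : Valuation L ℤᵐ⁰} {φ : K →+* L} {x : Fin N → L}

theorem term_le {wt : Fin N → ℕ} {c : Fin N → ℕ} {Wb : ℕ} (hc : ∀ j, wt j * c j = Wb) {Z : ℤᵐ⁰}
    (hZ : ∀ j, v (x j) ^ c j ≤ Z) (d : Fin N →₀ ℕ) :
    v (∏ j, x j ^ d j) ^ Wb ≤ Z ^ wgt wt d := by
  unfold wgt
  rw [map_prod, ← Finset.prod_pow, ← Finset.prod_pow_eq_pow_sum]
  refine Finset.prod_le_prod' fun j _ => ?_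
  rw [map_pow, ← pow_mul, ← hc j]
  have e : d j * (wt j * c j) = c j * (wt j * d j) := by ring
  rw [e, pow_mul]
  exact pow_le_pow_left' (hZ j) _

theorem val_term {P : MvPolynomial (Fin N) K} (hP : ∀ d, IsIntegral ℤ (P.coeff d))
    {wt : Fin N → ℕ} {c : Fin N → ℕ} {Wb : ℕ} (hc : ∀ j, wt j * c j = Wb) {Z : ℤᵐ⁰}
    (hZ : ∀ j, v (x j) ^ c j ≤ Z) (d : Fin N →₀ ℕ) :
    v (φ (P.coeff d) * ∏ j, x j ^ d j) ^ Wb ≤ Z ^ wgt wt d := by
  rw [map_mul, mul_pow]
  calc v (φ (P.coeff d)) ^ Wb * v (∏ j, x j ^ d j) ^ Wb ≤ 1 * Z ^ wgt wt d :=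
        mul_le_mul' (pow_le_one' (val_le_one_of_integral v (map_isIntegral_int φ (hP d))) _)
          (term_le hc hZ d)
    _ = _ := one_mul _

/-- polynomials with terms of bounded weight -/
theorem val_le {P : MvPolynomial (Fin N) K} (hP : ∀ d, IsIntegral ℤ (P.coeff d))
    {wt : Fin N → ℕ} {c : Fin N → ℕ} {Wb : ℕ} (hc : ∀ j, wt j * c j = Wb) {Z : ℤᵐ⁰}
    (hZ : ∀ j, v (x j) ^ c j ≤ Z) (hZ1 : 1 ≤ Z) {E : ℕ} (hE : ∀ d, P.coeff d ≠ 0 → wgt wt d ≤ E) :
    v (MvPolynomial.eval₂ φ x P) ^ Wb ≤ Z ^ E := by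
  by_contra hcon
  rw [not_le] at hcon
  have hW : Wb ≠ 0 := by
    rintro rfl
    rw [pow_zero] at hcon
    exact absurd (one_le_pow₀ hZ1) (not_le.2 hcon)
  have h0 : v (MvPolynomial.eval₂ φ x P) ≠ 0 := by
    intro h
    rw [h, zero_pow hW] at hcon
    exact not_lt_zero' hcon
  have h1 : v (MvPolynomial.eval₂ φ x P) < v (MvPolynomial.eval₂ φ x P) := by
    conv_lhs => rw [MvPolynomial.eval₂_eq']
    refine Valuation.map_sum_lt v h0 fun d hd => ?_
    by_contra h2
    rw [not_lt] at h2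
    have h3 := (pow_le_pow_left' h2 Wb).trans (val_term hP hc hZ d)
    have h4 : Z ^ wgt wt d ≤ Z ^ E := pow_le_pow_right₀ hZ1 (hE d (MvPolynomial.mem_support_iff.1 hd))
    exact absurd (h3.trans h4) (not_le.2 hcon)
  exact lt_irrefl _ h1

/-- polynomials with terms of small weight -/
theorem val_lt {P : MvPolynomial (Fin N) K} (hP : ∀ d, IsIntegral ℤ (P.coeff d))
    {wt : Fin N → ℕ} {c : Fin N → ℕ} {Wb : ℕ} (hc : ∀ j, wt j * c j = Wb) (hW : Wb ≠ 0) {Z : ℤᵐ⁰}
    (hZ : ∀ j, v (x j) ^ c j ≤ Z) (hZ1 : 1 < Z) {E : ℕ} (hE : ∀ d, P.coeff d ≠ 0 → wgt wt d < E) :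
    v (MvPolynomial.eval₂ φ x P) ^ Wb < Z ^ E := by
  by_contra hcon
  rw [not_lt] at hcon
  have hZE : 0 < Z ^ E := pow_pos (zero_lt_one.trans hZ1) _
  have h0 : v (MvPolynomial.eval₂ φ x P) ≠ 0 := by
    intro h
    rw [h, zero_pow hW] at hcon
    exact absurd hZE (not_lt.2 hcon)
  have h1 : v (MvPolynomial.eval₂ φ x P) < v (MvPolynomial.eval₂ φ x P) := by
    conv_lhs => rw [MvPolynomial.eval₂_eq']
    refine Valuation.map_sum_lt v h0 fun d hd => ?_
    by_contra h2
    rw [not_lt] at h2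
    have h3 := (pow_le_pow_left' h2 Wb).trans (val_term hP hc hZ d)
    have h4 : Z ^ wgt wt d < Z ^ E := pow_lt_pow_right₀ hZ1 (hE d (MvPolynomial.mem_support_iff.1 hd))
    exact absurd (hcon.trans h3) (not_le.2 h4)
  exact lt_irrefl _ h1

theorem pow_ne_of_lt {a b : ℤᵐ⁰} {n : ℕ} (h : a ^ n < b ^ n) : a < b := by
  by_contra hcon
  rw [not_lt] at hcon
  exact absurd (pow_le_pow_left' hcon n) (not_le.2 h)

/-- At a pole one of `N` different groups has polynomials with dominating leading forms. -/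
theorem exists_group {n : ℕ} {D : Data K (n + 1) q} (hD : D.Adm) {x : Fin (n + 1) → L}
    (hx : ¬ ∀ j, v (x j) ≤ 1) {S : Fin (n + 1) → Fin q} (hS : Function.Injective S) :
    ∃ l, ∀ i, v (MvPolynomial.eval₂ φ x (D.L (S l) i) /
      MvPolynomial.eval₂ φ x (D.G (S l)) ^ D.a (S l) i - 1) < 1 ∧
      MvPolynomial.eval₂ φ x (D.G (S l)) ≠ 0 := by
  classical
  set c : Fin (n + 1) → ℕ := fun j => ∏ i ∈ Finset.univ.erase j, D.wt i with hcdef
  set Wb : ℕ := ∏ i, D.wt i with hWb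
  have hc : ∀ j, D.wt j * c j = Wb := fun j => Finset.mul_prod_erase Finset.univ _ (Finset.mem_univ j)
  have hW : Wb ≠ 0 := Finset.prod_ne_zero_iff.2 fun j _ => (hD.wpos j).ne'
  have hc0 : ∀ j, c j ≠ 0 := fun j h => hW (by rw [← hc j, h, mul_zero])
  obtain ⟨j0, hj0⟩ := Finite.exists_max fun j => v (x j) ^ c j
  set Z : ℤᵐ⁰ := v (x j0) ^ c j0 with hZdef
  have hZ1 : 1 < Z := by
    push Not at hx
    obtain ⟨j, hj⟩ := hx
    exact lt_of_lt_of_le (one_lt_pow₀ hj (hc0 j)) (hj0 j)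
  -- one of the forms is large
  obtain ⟨l, hl⟩ : ∃ l, Z ^ D.e (S l) ≤ v (MvPolynomial.eval₂ φ x (D.G (S l))) ^ Wb := by
    by_contra hcon
    push Not at hcon
    obtain ⟨M, A, hA1, hA2, hA3⟩ := hD.cop S hS j0
    have h1 : MvPolynomial.eval₂ φ x (∑ i, A i * D.G (S i)) = x j0 ^ M := by
      rw [hA3, MvPolynomial.eval₂_pow, MvPolynomial.eval₂_X]
    rw [MvPolynomial.eval₂_sum] at h1
    have h2 : v (x j0 ^ M) ≠ 0 := by
      rw [map_pow]
      refine pow_ne_zero _ fun h => ?_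
      rw [hZdef, h, zero_pow (hc0 j0)] at hZ1
      exact absurd hZ1 (not_lt.2 zero_le_one)
    have h3 : v (x j0 ^ M) < v (x j0 ^ M) := by
      conv_lhs => rw [← h1]
      refine Valuation.map_sum_lt v h2 fun i _ => pow_ne_of_lt (n := Wb) ?_
      rw [MvPolynomial.eval₂_mul, map_mul, mul_pow]
      have h4 : v (x j0 ^ M) ^ Wb = Z ^ (D.wt j0 * M) := by
        rw [map_pow, hZdef, ← pow_mul, ← pow_mul, ← hc j0]
        congr 1
        ring
      rw [h4]
      by_cases hAi : A i = 0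
      · rw [hAi, MvPolynomial.eval₂_zero, map_zero, zero_pow hW, zero_mul]
        exact pow_pos (zero_lt_one.trans hZ1) _
      · obtain ⟨d, hd⟩ := MvPolynomial.ne_zero_iff.1 hAi
        have h5 := hA2 i d hd
        have h6 : v (MvPolynomial.eval₂ φ x (A i)) ^ Wb ≤ Z ^ (D.wt j0 * M - D.e (S i)) :=
          val_le (hA1 i) hc hj0 hZ1.le fun d hd => by
            have := hA2 i d hd
            omega
        have h7 : Z ^ (D.wt j0 * M) = Z ^ (D.wt j0 * M - D.e (S i)) * Z ^ D.e (S i) := by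
          rw [← pow_add]
          congr 1
          omega
        rw [h7]
        refine lt_of_le_of_lt (mul_le_mul' h6 le_rfl) ?_
        exact mul_lt_mul_of_pos_left (hcon i) (pow_pos (zero_lt_one.trans hZ1) _)
    exact lt_irrefl _ h3
  have hG0 : MvPolynomial.eval₂ φ x (D.G (S l)) ≠ 0 := by
    intro h
    rw [h, map_zero, zero_pow hW] at hl
    exact absurd (pow_pos (zero_lt_one.trans hZ1) _) (not_lt.2 hl)
  refine ⟨l, fun i => ⟨?_, hG0⟩⟩
  have hlow : v (MvPolynomial.eval₂ φ x (D.L (S l) i - D.G (S l) ^ D.a (S l) i)) ^ Wb <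
      Z ^ (D.e (S l) * D.a (S l) i) := by
    refine val_lt (fun d => ?_) hc hW hj0 hZ1 fun d hd => hD.low _ _ d hd
    rw [MvPolynomial.coeff_sub]
    refine (hD.intL _ _ d).sub ?_
    have hpow : ∀ m : ℕ, ∀ d, IsIntegral ℤ ((D.G (S l) ^ m).coeff d) := by
      intro m
      induction m with
      | zero =>
        intro d
        rw [pow_zero, MvPolynomial.coeff_one]
        split_ifs
        · exact isIntegral_one
        · exact isIntegral_zero
      | succ m ih =>
        intro d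
        rw [pow_succ, MvPolynomial.coeff_mul]
        exact IsIntegral.sum _ fun p _ => (ih _).mul (hD.intG _ _)
    exact hpow _ _
  have h1 : MvPolynomial.eval₂ φ x (D.L (S l) i) /
      MvPolynomial.eval₂ φ x (D.G (S l)) ^ D.a (S l) i - 1 =
      MvPolynomial.eval₂ φ x (D.L (S l) i - D.G (S l) ^ D.a (S l) i) /
        MvPolynomial.eval₂ φ x (D.G (S l)) ^ D.a (S l) i := by
    have e : MvPolynomial.eval₂ φ x (D.L (S l) i - D.G (S l) ^ D.a (S l) i) =
        MvPolynomial.eval₂ φ x (D.L (S l) i) -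
          MvPolynomial.eval₂ φ x (D.G (S l)) ^ D.a (S l) i := by
      rw [MvPolynomial.eval₂_sub, MvPolynomial.eval₂_pow]
    rw [e, sub_div, div_self (pow_ne_zero _ hG0)]
  rw [h1, map_div₀, map_pow, div_lt_one₀ (pow_pos ((Valuation.pos_iff v).2 hG0) _)]
  refine pow_ne_of_lt (n := Wb) (hlow.trans_le ?_)
  calc Z ^ (D.e (S l) * D.a (S l) i) = (Z ^ D.e (S l)) ^ D.a (S l) i := pow_mul _ _ _
    _ ≤ (v (MvPolynomial.eval₂ φ x (D.G (S l))) ^ Wb) ^ D.a (S l) i := pow_le_pow_left' hl _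
    _ = (v (MvPolynomial.eval₂ φ x (D.G (S l))) ^ D.a (S l) i) ^ Wb := by
      rw [← pow_mul, ← pow_mul, mul_comm]

/-- integral points -/
theorem val_int {P : MvPolynomial (Fin N) K} (hP : ∀ d, IsIntegral ℤ (P.coeff d))
    (hx : ∀ j, v (x j) ≤ 1) : v (MvPolynomial.eval₂ φ x P) ≤ 1 := by
  rw [MvPolynomial.eval₂_eq']
  refine Valuation.map_sum_le v fun d _ => ?_
  rw [map_mul, map_prod]
  exact mul_le_one' (val_le_one_of_integral v (map_isIntegral_int φ (hP _)))
    (Finset.prod_le_one' fun j _ => by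
      rw [map_pow]
      exact pow_le_one' (hx j) _)

end val

end Pool.Agent.Run7.h954.MX
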