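import Pool.Agent.Run7.h954.MX.Fib
set_option autoImplicit false

/-!
The symbols on the fibrations `W(z) = Φ` are unramified.
-/

namespace Pool.Agent.Run7.h954.MX

open Pool.Agent.TH826.MK (KQ symb Unramified Torus)

open scoped WithZero

open Pool.Agent.TH826.MK

open Pool.Agent.N65.TL

open Pool.Agent.N65.TD (exists_max_dot val_mon)

open Pool.Agent.Run7.h954.FP


theorem gsym_unram_aux {K : Type*} [Field K] {B : Type*} [CommRing B] [Algebra K B] {s d : ℕ}
    {W : LP K (s + 1)} (hWi : Interior W) (hWt : Tame W) {Φ : B} {u : Fin (d + 1) → Bˣ}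
    {L : Type*} [Field L] (f : GRing W Φ →+* L) (v : Valuation L ℤᵐ⁰)
    (hb : (∃ k, ∃ n : ℕ, 0 < n ∧ ∃ e : L, (∃ k : ℕ, k ≠ 0 ∧ e ^ k = 1) ∧
        v (f.comp (gb W Φ) (u k : B) ^ n - e) < 1) ∨
      (v (f.comp (gb W Φ) Φ) ≤ 1 ∧ (v (f.comp (gb W Φ) Φ) = 1 →
        ∀ k, v (f.comp (gb W Φ) (u k : B)) = 1))) :
    symb (fun l => Units.map (f : GRing W Φ →* L) (Sum.elim (gz W Φ)
      (fun k => Units.map (gb W Φ : B →* GRing W Φ) (u k)) ((esum s d).symm l))) ∈
      unitPart v (s + (d + 1) + 1) := by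
  classical
  set ψ : B →+* L := f.comp (gb W Φ) with hψ
  set φ : K →+* L := ψ.comp (algebraMap K B) with hφ
  set a : Fin (s + (d + 1) + 1) → Lˣ := fun l => Units.map (f : GRing W Φ →* L)
    (Sum.elim (gz W Φ) (fun k => Units.map (gb W Φ : B →* GRing W Φ) (u k))
    ((esum s d).symm l)) with ha
  have haz : (fun i => a (esum s d (Sum.inl i))) = fun i =>
      Units.map (f : GRing W Φ →* L) (gz W Φ i) := by
    funext i
    rw [ha]
    simp only [Equiv.symm_apply_apply, Sum.elim_inl]
  have hau : ∀ k, ((a (esum s d (Sum.inr k)) : Lˣ) : L) = ψ (u k : B) := by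
    intro k
    rw [ha]
    simp only [Equiv.symm_apply_apply, Sum.elim_inr]
    rfl
  rcases hb with ⟨k, n, hn, e, he, h1⟩ | ⟨hle, hone⟩
  · refine mem_of_pow v a (esum s d (Sum.inr k)) hn he ?_
    rw [hau]
    exact h1
  · have hlev : lev φ (fun i => a (esum s d (Sum.inl i))) W = ψ Φ := by
      rw [haz]
      exact lev_gz W Φ f
    have hWle : v (lev φ (fun i => a (esum s d (Sum.inl i))) W) ≤ 1 := by
      rw [hlev]
      exact hle
    have hinj : Function.Injective fun i => esum s d (Sum.inl i) := fun i j h =>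
      Sum.inl_injective ((esum s d).injective h)
    choose k hk using fun j => exists_ord v (a (esum s d (Sum.inl j)))
    by_cases hk0 : k = 0
    · -- all `z_j` are units
      have hz1 : ∀ j, v (a (esum s d (Sum.inl j)) : L) = 1 := by
        intro j
        rw [hk, hk0]
        rfl
      obtain ⟨m0, hm0, -⟩ := hWi (Pi.single 0 1) (by
        intro h
        have := congrFun h 0
        simp at this)
      have hmon : v ((mon (fun j => a (esum s d (Sum.inl j))) m0 : Lˣ) : L) = 1 := by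
        rw [val_mon v _ hk, hk0]
        simp
      rcases lt_or_eq_of_le hWle with hlt | heq
      · exact mem_unitPart_of_tame φ v a hinj hWt hm0 (by rw [hmon]; exact hlt)
      · rw [hlev] at heq
        refine Submodule.subset_span ⟨a, fun l => ?_, rfl⟩
        obtain ⟨r, rfl⟩ := (esum s d).surjective l
        rcases r with i | k
        · exact hz1 i
        · rw [hau]
          exact hone heq k
    · obtain ⟨m0, hm0, hpos⟩ := hWi k hk0
      refine mem_unitPart_of_tame φ v a hinj hWt hm0 (lt_of_le_of_lt hWle ?_)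
      rw [val_mon v _ hk, ← WithZero.exp_zero, WithZero.exp_lt_exp]
      exact hpos

/-- The symbols are unramified. -/
theorem gsym_unram {K : Type*} [Field K] {B : Type*} [CommRing B] [Algebra K B] {s d : ℕ}
    {W : LP K (s + 1)} (hWi : Interior W) (hWt : Tame W) {Φ : B} {u : Fin (d + 1) → Bˣ}
    {L : Type*} [Field L] (f : GRing W Φ →+* L)
    (hb : ∀ v : Valuation L ℤᵐ⁰, (∃ k, ∃ n : ℕ, 0 < n ∧ ∃ e : L, (∃ k : ℕ, k ≠ 0 ∧ e ^ k = 1) ∧
        v (f.comp (gb W Φ) (u k : B) ^ n - e) < 1) ∨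
      (v (f.comp (gb W Φ) Φ) ≤ 1 ∧ (v (f.comp (gb W Φ) Φ) = 1 →
        ∀ k, v (f.comp (gb W Φ) (u k : B)) = 1))) :
    KQ.map _ f (gsym W Φ u) ∈ Unramified L _ := by
  unfold gsym
  rw [KQ.map_symb]
  unfold Unramified
  simp only [Submodule.mem_iInf]
  intro v _
  exact gsym_unram_aux hWi hWt f v (hb v)

end Pool.Agent.Run7.h954.MX
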