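import Pool.Agent.Run7.h954.MX.Unr
import Pool.Agent.Run7.h954.MX.FUnr
set_option autoImplicit false

/-!
Fibrations over the open part `∏ L ≠ 0` of the affine space: definitions, and the symbols are
unramified.
-/

namespace Pool.Agent.Run7.h954.MX

open Pool.Agent.TH826.MK (KQ symb Unramified Torus)

open Pool.Agent.N65.TL (LP Interior Tame esum)

open Pool.Agent.Run7.h954.FP (GRing gb gz gcst)

variable {K : Type*} [Field K] {N q : ℕ}

/-- The coordinate ring of the open part `∏ L_{k,i} ≠ 0` of the affine space; `X none` is the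
inverse of the product. -/
def Data.BRing (D : Data K N q) : Type _ :=
  MvPolynomial (Option (Fin N)) K ⧸
    Ideal.span {MvPolynomial.X none * MvPolynomial.rename some D.F - 1}

noncomputable instance Data.instBRing (D : Data K N q) : CommRing D.BRing :=
  Ideal.Quotient.commRing
    (Ideal.span {MvPolynomial.X none * MvPolynomial.rename some D.F - 1})

/-- The restriction of polynomials. -/
noncomputable def Data.bmk (D : Data K N q) : MvPolynomial (Option (Fin N)) K →+* D.BRing :=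
  Ideal.Quotient.mk (Ideal.span {MvPolynomial.X none * MvPolynomial.rename some D.F - 1})

noncomputable instance Data.instAlg (D : Data K N q) : Algebra K D.BRing :=
  (D.bmk.comp MvPolynomial.C).toAlgebra

/-- The restriction of polynomials in the coordinates of the affine space. -/
noncomputable def Data.bp (D : Data K N q) : MvPolynomial (Fin N) K →+* D.BRing :=
  D.bmk.comp (MvPolynomial.rename some).toRingHom

theorem Data.bp_eqn (D : Data K N q) :
    D.bmk (MvPolynomial.X none) * ∏ y : (Σ k, Fin (D.r k + 1)), D.bp (D.L y.1 y.2) = 1 := by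
  have h : D.bmk (MvPolynomial.X none * MvPolynomial.rename some D.F - 1) = 0 :=
    Ideal.Quotient.eq_zero_iff_mem.2 (Ideal.subset_span rfl)
  rw [map_sub, map_one, sub_eq_zero, map_mul] at h
  unfold Data.F at h
  rw [map_prod, map_prod] at h
  exact h

theorem Data.isUnit_bL (D : Data K N q) (y : Σ k, Fin (D.r k + 1)) :
    IsUnit (D.bp (D.L y.1 y.2)) := by
  refine isUnit_of_dvd_one ?_
  rw [← D.bp_eqn]
  refine Dvd.dvd.mul_left ?_ _
  exact Finset.dvd_prod_of_mem (fun y : (Σ k, Fin (D.r k + 1)) => D.bp (D.L y.1 y.2))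
    (Finset.mem_univ y)

/-- The units `L_{k,i}`. -/
noncomputable def Data.bL (D : Data K N q) (y : Σ k, Fin (D.r k + 1)) : (D.BRing)ˣ :=
  (D.isUnit_bL y).unit

/-- The units `u_{k,i} = L_{k,i}^{a_{k,0}} / L_{k,0}^{a_{k,i}}`, `1 ≤ i ≤ r_k`. -/
noncomputable def Data.bu (D : Data K N q) (y : Σ k, Fin (D.r k)) : (D.BRing)ˣ :=
  D.bL ⟨y.1, y.2.succ⟩ ^ D.a y.1 0 / D.bL ⟨y.1, 0⟩ ^ D.a y.1 y.2.succ

/-- The function `g ∏_k ∏_i L_{k,i}^(w_{k,i} + 1)`. -/
noncomputable def Data.Phi0 (D : Data K N q) (g : MvPolynomial (Fin N) K)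
    (w : (Σ k, Fin (D.r k + 1)) → ℕ) : D.BRing :=
  D.bp g * ∏ y, (D.bL y : D.BRing) ^ (w y + 1)

/-- The function `λ g ∏_k ∏_i L_{k,i}^(w_{k,i} + 1)`. -/
noncomputable def Data.Phi (D : Data K N q) (g : MvPolynomial (Fin N) K)
    (w : (Σ k, Fin (D.r k + 1)) → ℕ) (lam : K) : D.BRing :=
  algebraMap K D.BRing lam * D.Phi0 g w

section fam

variable {s n : ℕ} (D : Data K (n + 1) q) (W : LP K (s + 1)) (g : MvPolynomial (Fin (n + 1)) K)
  (w : (Σ k, Fin (D.r k + 1)) → ℕ) (lam : K)

/-- The coordinate ring of the open part `∏_k ∏_i L_{k,i} ≠ 0` of the fibration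
`W(z) = λ g ∏_k ∏_i L_{k,i}^(w_{k,i} + 1)`, `z_i ≠ 0`, over the affine space. -/
def Data.FibRing : Type _ := GRing W (D.Phi g w lam)

noncomputable instance Data.instFibRing : CommRing (D.FibRing W g w lam) :=
  GRing.instRing W (D.Phi g w lam)

/-- The constants. -/
noncomputable def Data.fcst : K →+* D.FibRing W g w lam := gcst W (D.Phi g w lam)

/-- The units `z_i`. -/
noncomputable def Data.fz (i : Fin (s + 1)) : (D.FibRing W g w lam)ˣ :=
  gz W (D.Phi g w lam) i

/-- The units `u_{k,i}`. -/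
noncomputable def Data.fu (y : Σ k, Fin (D.r k)) : (D.FibRing W g w lam)ˣ :=
  gu W (D.Phi g w lam) (D.bu y)

/-- The symbols `{z_0, ..., z_s, u_{k_0,i_0}, ..., u_{k_n,i_n}}`. -/
noncomputable def Data.fsym (t : D.Idx) : KQ (D.FibRing W g w lam) (s + (n + 1) + 1) :=
  symb fun l => Sum.elim (D.fz W g w lam) (fun j => D.fu W g w lam (t.1 j)) ((esum s n).symm l)

end fam

/-- For every index `t` there is a common complex zero (over `σ`) of the polynomials
`L_{k_j,i_j}`, `1 ≤ j ≤ N`, at which their Jacobian determinant, the other polynomials, and `g` do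
not vanish. -/
def Data.ZerosG (D : Data K N q) (g : MvPolynomial (Fin N) K) (σ : K →+* ℂ) : Prop :=
  ∀ t : D.Idx, ∃ p : Fin N → ℂ,
    (∀ j, MvPolynomial.eval₂ σ p (D.L (t.1 j).1 (t.1 j).2.succ) = 0) ∧
    (Matrix.of fun j l => MvPolynomial.eval₂ σ p
      (MvPolynomial.pderiv l (D.L (t.1 j).1 (t.1 j).2.succ))).det ≠ 0 ∧
    (∀ y : (Σ k, Fin (D.r k + 1)), (∀ j, y ≠ ⟨(t.1 j).1, (t.1 j).2.succ⟩) →
      MvPolynomial.eval₂ σ p (D.L y.1 y.2) ≠ 0) ∧
    MvPolynomial.eval₂ σ p g ≠ 0

section unr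

open scoped WithZero

open Pool.Agent.TH826.MK

open Pool.Agent.N65.TL

open Pool.Agent.Run7.h954.FP

/-- The symbols are unramified. -/
theorem Data.funram {s n : ℕ} {D : Data K (n + 1) q} (hD : D.Adm) {W : LP K (s + 1)}
    (hWi : Interior W) (hWt : Tame W) {g : MvPolynomial (Fin (n + 1)) K}
    (hg : ∀ d, IsIntegral ℤ (g.coeff d)) (w : (Σ k, Fin (D.r k + 1)) → ℕ) {lam : K}
    (hlam : IsIntegral ℤ lam) {L : Type*} [Field L] (f : D.FibRing W g w lam →+* L)
    (t : D.Idx) : KQ.map _ f (D.fsym W g w lam t) ∈ Unramified L _ := by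
  classical
  refine gsym_unram (u := fun j => D.bu (t.1 j)) hWi hWt (L := L) f fun v => ?_
  set f' : GRing W (D.Phi g w lam) →+* L := f with hf'
  set ψ : D.BRing →+* L := f'.comp (gb W (D.Phi g w lam)) with hψ
  set φ : K →+* L := ψ.comp (algebraMap K D.BRing) with hφ
  set x : Fin (n + 1) → L := fun j => ψ (D.bp (MvPolynomial.X j)) with hx
  have hC : (ψ.comp D.bp).comp MvPolynomial.C = φ := by
    refine RingHom.ext fun c => ?_
    have h1 : D.bp (MvPolynomial.C c) = algebraMap K D.BRing c := by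
      unfold Data.bp
      rw [RingHom.comp_apply]
      have h2 : (MvPolynomial.rename some).toRingHom (MvPolynomial.C c : MvPolynomial (Fin (n + 1)) K)
        = MvPolynomial.C c := MvPolynomial.rename_C _ _
      rw [h2]
      rfl
    rw [RingHom.comp_apply, RingHom.comp_apply, h1]
    rfl
  have hev : ∀ P : MvPolynomial (Fin (n + 1)) K, ψ (D.bp P) = MvPolynomial.eval₂ φ x P := by
    intro P
    have h1 := ev_eq (ψ.comp D.bp) P
    rw [hC] at h1
    exact h1
  have hbL : ∀ y, ψ (D.bL y : D.BRing) = MvPolynomial.eval₂ φ x (D.L y.1 y.2) := fun y => hev _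
  have hbL0 : ∀ k i, MvPolynomial.eval₂ φ x (D.L k i) ≠ 0 := fun k i => by
    have h1 := hbL ⟨k, i⟩
    simp only at h1
    rw [← h1]
    exact ((D.bL ⟨k, i⟩).isUnit.map ψ).ne_zero
  have hau : ∀ y, ψ (D.bu y : D.BRing) = MvPolynomial.eval₂ φ x (D.L y.1 y.2.succ) ^ D.a y.1 0 /
      MvPolynomial.eval₂ φ x (D.L y.1 0) ^ D.a y.1 y.2.succ := by
    intro y
    have h1 : ψ (D.bu y : D.BRing) = ((Units.map (ψ : D.BRing →* L) (D.bu y) : Lˣ) : L) := rfl
    rw [h1]
    unfold Data.bu
    rw [_root_.map_div, map_pow, map_pow, Units.val_div_eq_div_val, Units.val_pow_eq_pow_val,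
      Units.val_pow_eq_pow_val]
    have h2 : ∀ y, ((Units.map (ψ : D.BRing →* L) (D.bL y) : Lˣ) : L) =
      MvPolynomial.eval₂ φ x (D.L y.1 y.2) := fun y => hbL y
    rw [h2, h2]
  by_cases hp : ∀ j, v (x j) ≤ 1
  · right
    have hle : ∀ y : (Σ k, Fin (D.r k + 1)), v (MvPolynomial.eval₂ φ x (D.L y.1 y.2)) ≤ 1 :=
      fun y => val_int (hD.intL y.1 y.2) hp
    have hlamv : v (φ lam) ≤ 1 := val_le_one_of_integral v (map_isIntegral_int φ hlam)
    have hgv : v (MvPolynomial.eval₂ φ x g) ≤ 1 := val_int hg hp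
    have hPhi : ψ (D.Phi g w lam) = (φ lam * MvPolynomial.eval₂ φ x g) *
        ∏ y : (Σ k, Fin (D.r k + 1)), MvPolynomial.eval₂ φ x (D.L y.1 y.2) ^ (w y + 1) := by
      unfold Data.Phi Data.Phi0
      rw [map_mul, map_mul, map_prod, hev]
      simp only [map_pow, hbL]
      rw [mul_assoc]
      rfl
    have hc : v (φ lam * MvPolynomial.eval₂ φ x g) ≤ 1 := by
      rw [map_mul]
      exact mul_le_one' hlamv hgv
    have hpow : ∀ y : (Σ k, Fin (D.r k + 1)),
        v (MvPolynomial.eval₂ φ x (D.L y.1 y.2) ^ (w y + 1)) ≤ 1 := fun y => by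
      rw [map_pow]
      exact pow_le_one' (hle y) _
    refine ⟨?_, fun h j => ?_⟩
    · show v (ψ (D.Phi g w lam)) ≤ 1
      rw [hPhi, map_mul, map_prod]
      exact mul_le_one' hc (Finset.prod_le_one' fun y _ => hpow y)
    · have h' : v (ψ (D.Phi g w lam)) = 1 := h
      rw [hPhi] at h'
      have hone : ∀ y : (Σ k, Fin (D.r k + 1)), v (MvPolynomial.eval₂ φ x (D.L y.1 y.2)) = 1 := by
        intro y
        have h4 := prod_unit' v hpow hc h' y
        rw [map_pow] at h4
        refine le_antisymm (hle y) ?_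
        by_contra hcon
        rw [not_le] at hcon
        have h5 : v (MvPolynomial.eval₂ φ x (D.L y.1 y.2)) ^ (w y + 1) < 1 :=
          pow_lt_one' hcon (Nat.succ_ne_zero _)
        rw [h4] at h5
        exact lt_irrefl _ h5
      show v (ψ (D.bu (t.1 j) : D.BRing)) = 1
      rw [hau, map_div₀, map_pow, map_pow]
      have h6 := hone ⟨(t.1 j).1, (t.1 j).2.succ⟩
      have h7 := hone ⟨(t.1 j).1, 0⟩
      simp only at h6 h7
      rw [h6, h7, one_pow, one_pow, div_one]
  · left
    obtain ⟨l, hl⟩ := exists_one_unit (φ := φ) hD hp (S := fun j => (t.1 j).1) t.2.injective hbL0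
    obtain ⟨e, he, h1⟩ := hl (t.1 l).2
    refine ⟨l, 1, one_pos, e, he, ?_⟩
    show v (ψ (D.bu (t.1 l) : D.BRing) ^ 1 - e) < 1
    rw [hau]
    exact h1

end unr

end Pool.Agent.Run7.h954.MX
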