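import Pool.Agent.Run7.h954.MX.Germ
import Pool.Agent.Run7.h954.FP.PReg
set_option autoImplicit false

/-!
Tori on the hypersurfaces `λ ∏ L = 1`, and the regulators.
-/

namespace Pool.Agent.Run7.h954.MX

open Filter Topology

open Pool.Agent.TH826.MK (KQ symb Torus Good Per lw circ lw_mul lw_prod lw_const good_const
  norm_circ pairing)

open Pool.Agent.TH826.SX (pairing_close good_circ lw_circ circ_ne_zero good_om lw_prod_circ
  good_prod_circ)

open Pool.Agent.N65.TL (good_inv lw_inv per_circ)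

open Pool.Agent.TH577.UA (good_pow lw_pow)

open Pool.Agent.Run7.h954.FP (RX det_RX exists_pos_le exists_ge)

section pts

variable {K : Type*} [Field K] {N q : ℕ} {σ : K →+* ℂ} {D : Data K N q} {lam : K}

/-- The complex points. -/
def Pt (σ : K →+* ℂ) (D : Data K N q) (lam : K) (p : Fin N → ℂ) : Prop :=
  σ lam * ∏ y : (Σ k, Fin (D.r k + 1)), MvPolynomial.eval₂ σ p (D.L y.1 y.2) = 1

variable {p : Fin N → ℂ}

/-- evaluation at a point -/
noncomputable def Pt.ev (h : Pt σ D lam p) : D.XRing lam →+* ℂ :=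
  Ideal.Quotient.lift (Ideal.span {MvPolynomial.C lam * D.F - 1}) (MvPolynomial.eval₂Hom σ p) (by
    intro q hq
    have hle : Ideal.span {MvPolynomial.C lam * D.F - 1} ≤
        RingHom.ker (MvPolynomial.eval₂Hom σ p) := by
      rw [Ideal.span_le]
      intro q hq
      rw [Set.mem_singleton_iff] at hq
      subst hq
      show MvPolynomial.eval₂Hom σ p _ = 0
      rw [map_sub, map_mul, map_one, MvPolynomial.eval₂Hom_C]
      unfold Data.F
      rw [map_prod]
      have h1 : σ lam * ∏ y : (Σ k, Fin (D.r k + 1)),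
        MvPolynomial.eval₂Hom σ p (D.L y.1 y.2) = 1 := h
      rw [h1, sub_self]
    exact hle hq)

theorem Pt.ev_mk (h : Pt σ D lam p) (P : MvPolynomial (Fin N) K) :
    h.ev (D.xmk lam P) = MvPolynomial.eval₂ σ p P := Ideal.Quotient.lift_mk _ _ _

theorem Pt.ev_cst (h : Pt σ D lam p) (c : K) : h.ev (D.xcst lam c) = σ c := by
  unfold Data.xcst
  rw [RingHom.comp_apply, h.ev_mk, MvPolynomial.eval₂_C]

theorem Pt.ev_Lu (h : Pt σ D lam p) (k : Fin q) (i : Fin (D.r k + 1)) :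
    h.ev (D.Lu lam k i : D.XRing lam) = MvPolynomial.eval₂ σ p (D.L k i) := by
  have h1 : ((D.Lu lam k i : (D.XRing lam)ˣ) : D.XRing lam) = D.xmk lam (D.L k i) := rfl
  rw [h1, h.ev_mk]

theorem Pt.ev_u (h : Pt σ D lam p) (y : Σ k, Fin (D.r k)) :
    h.ev (D.u lam y : D.XRing lam) = MvPolynomial.eval₂ σ p (D.L y.1 y.2.succ) ^ D.a y.1 0 *
      (MvPolynomial.eval₂ σ p (D.L y.1 0) ^ D.a y.1 y.2.succ)⁻¹ := by
  have h1 := map_units_inv (h.ev : D.XRing lam →* ℂ) (D.Lu lam y.1 0 ^ D.a y.1 y.2.succ)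
  unfold Data.u
  rw [div_eq_mul_inv, Units.val_mul, map_mul]
  congr 1
  · rw [Units.val_pow_eq_pow_val, map_pow, h.ev_Lu]
  · refine h1.trans ?_
    congr 1
    show h.ev ((D.Lu lam y.1 0 ^ D.a y.1 y.2.succ : (D.XRing lam)ˣ) : D.XRing lam) = _
    rw [Units.val_pow_eq_pow_val, map_pow, h.ev_Lu]

theorem Pt.congr {p' : Fin N → ℂ} (h : Pt σ D lam p) (h' : Pt σ D lam p') (hp : p = p') :
    h.ev = h'.ev := by
  subst hp
  rfl

/-- a torus in the hypersurface -/
noncomputable def mkH {e : ℕ} {P : (Fin e → ℝ) → Fin N → ℂ}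
    (hP : ContDiff ℝ 2 P) (h : ∀ θ, Pt σ D lam (P θ))
    (hper : ∀ θ j, P (θ + Pi.single j 1) = P θ) : Torus (D.XRing lam) e where
  e θ := (h θ).ev
  smooth b := by
    obtain ⟨Q, rfl⟩ : ∃ Q, D.xmk lam Q = b := Ideal.Quotient.mk_surjective b
    have e1 : (fun θ => (h θ).ev (D.xmk lam Q)) = fun θ => MvPolynomial.eval₂ σ (P θ) Q := by
      funext θ
      exact (h θ).ev_mk Q
    rw [e1]
    exact ((contDiff_mv σ Q).restrict_scalars ℝ).comp hP
  periodic θ j := Pt.congr _ _ (hper θ j)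

end pts

section mat

variable {K : Type*} [Field K] {n q : ℕ} {D : Data K (n + 1) q}

theorem exists_ne {t t' : D.Idx} (h : t ≠ t') : ∃ l, ∀ j, t'.1 l ≠ t.1 j := by
  by_contra hcon
  push Not at hcon
  choose f hf using hcon
  have hmono : StrictMono f := by
    intro l l' hll
    have h1 : (t'.1 l).1 < (t'.1 l').1 := t'.2 hll
    rw [hf l, hf l'] at h1
    exact t.2.lt_iff_lt.1 h1
  have hid : f = id := by
    refine (hmono.range_inj strictMono_id).1 ?_
    rw [Set.range_id]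
    exact Set.range_eq_univ.2 (Finite.injective_iff_surjective.1 hmono.injective)
  refine h (Subtype.ext (funext fun l => ?_))
  rw [hf l, hid]
  rfl

/-- the matrix of the orders of the entries in the coordinates -/
noncomputable def pm (t : D.Idx) (y : Σ k, Fin (D.r k)) (j : Fin (n + 1)) : ℝ :=
  open Classical in if y = t.1 j then (D.a y.1 0 : ℝ) else 0

theorem det_pm (t t' : D.Idx) : (Matrix.of fun l j => pm t (t'.1 l) j).det =
    open Classical in if t = t' then ∏ j, (D.a (t.1 j).1 0 : ℝ) else 0 := by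
  classical
  by_cases h : t = t'
  · subst h
    rw [if_pos rfl]
    have e : (Matrix.of fun l j => pm t (t.1 l) j) =
        Matrix.diagonal fun j => (D.a (t.1 j).1 0 : ℝ) := by
      ext l j
      rw [Matrix.of_apply, Matrix.diagonal_apply]
      unfold pm
      by_cases hlj : l = j
      · subst hlj
        rw [if_pos rfl, if_pos rfl]
      · rw [if_neg hlj, if_neg fun h => hlj (t.2.injective (congrArg Sigma.fst h))]
    rw [e, Matrix.det_diagonal]
  · rw [if_neg h]
    obtain ⟨l, hl⟩ := exists_ne h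
    refine Matrix.det_eq_zero_of_row_eq_zero l fun j => ?_
    rw [Matrix.of_apply]
    unfold pm
    rw [if_neg (hl j)]

/-- the matrix of the orders -/
noncomputable def RH (t t' : D.Idx) : Matrix (Fin (n + 1)) (Fin (n + 1)) ℝ :=
  (Matrix.of fun l j => pm t (t'.1 l) j) * RX (fun _ => 1)

theorem det_RH (t t' : D.Idx) : (RH t t').det =
    open Classical in if t = t' then -∏ j, (D.a (t.1 j).1 0 : ℝ) else 0 := by
  classical
  unfold RH
  rw [Matrix.det_mul, det_pm, det_RX, Finset.prod_const_one, mul_neg_one]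
  split_ifs <;> simp

theorem RH_apply (t t' : D.Idx) (l m : Fin (n + 1)) :
    RH t t' l m = ∑ j, pm t (t'.1 l) j * RX (fun _ : Fin (n + 1) => (1 : ℝ)) j m := rfl

end mat

/-- The regulators of the symbols are asymptotic to a diagonal matrix. -/
theorem exists_htori {K : Type*} [Field K] {n q : ℕ} (D : Data K (n + 1) q) (σ : K →+* ℂ)
    (hz : D.Zeros σ) {ε : ℝ} (hε : 0 < ε) : ∃ C : ℝ, ∀ lam : K, C ≤ ‖σ lam‖ →
      ∃ Γ : D.Idx → Torus (D.XRing lam) n,
        (∀ t θ (x : K), (Γ t).e θ (D.xcst lam x) = σ x) ∧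
        ∀ t t', |(Γ t).reg (D.sym lam t') / Real.log ‖σ lam‖ -
          (2 * Real.pi) ^ n * (RH t t').det| ≤ ε := by
  classical
  have hpi := Real.pi_pos
  have hnpi : ‖(2 * Real.pi * Complex.I : ℂ)‖ = 2 * Real.pi := by
    rw [norm_mul, norm_mul, Complex.norm_I, Complex.norm_real, Complex.norm_ofNat, mul_one,
      Real.norm_eq_abs, abs_of_pos Real.pi_pos]
  choose δ hδ hclose using fun p : D.Idx × D.Idx => pairing_close (RH p.1 p.2) hε
  obtain ⟨δ1, hδ1, hδ1le⟩ := exists_pos_le hδ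
  -- the exponents
  obtain ⟨am, ham0, ham⟩ := exists_ge fun y : Σ k, Fin (D.r k + 1) => (D.a y.1 y.2 : ℝ)
  have ham' : ∀ k i, (D.a k i : ℝ) ≤ am := fun k i => ham ⟨k, i⟩
  set δ0 : ℝ := δ1 / (4 * (am + 1)) with hδ0
  have hδ0pos : 0 < δ0 := by positivity
  have hδ0le : 2 * (am * δ0) < δ1 := by
    have h1 : δ0 * (4 * (am + 1)) = δ1 := by
      rw [hδ0]
      field_simp
    nlinarith
  -- the germs
  choose p hp0 hpJ hpne using hz
  choose φ hφc B hBc hB0 hB using fun t : D.Idx =>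
    exists_germN D σ t (p := p t) (hp0 t) (hpJ t) (hpne t)
  choose rA CA hrA hCA hcomp using fun y : (D.Idx × (Σ k, Fin (D.r k + 1))) =>
    exists_compV (hBc y.1 y.2) (hB0 y.1 y.2) (B := 2 * Real.pi) (by positivity) hδ0pos
  obtain ⟨ρA, hρA, hρAle⟩ := exists_pos_le hrA
  obtain ⟨C1, hC10, hC1⟩ := exists_ge CA
  have hev : ∀ t : D.Idx, ∃ r > 0, ∀ s : Fin (n + 1) → ℂ, dist s 0 < r →
      ContDiffAt ℂ 2 (φ t) s ∧
      (∏ y : (Σ k, Fin (D.r k + 1)), MvPolynomial.eval₂ σ (φ t s) (D.L y.1 y.2) = ∏ j, s j ∧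
          (∀ j, MvPolynomial.eval₂ σ (φ t s) (D.L (nd t j).1 (nd t j).2) =
            s j * B t (nd t j) s) ∧
          ∀ y : (Σ k, Fin (D.r k + 1)), (∀ j, y ≠ nd t j) →
            MvPolynomial.eval₂ σ (φ t s) (D.L y.1 y.2) = B t y s) :=
    fun t => Metric.eventually_nhds_iff.1 (((hφc t).eventually (by norm_num)).and (hB t))
  choose rB hrB hball using hev
  obtain ⟨ρB, hρB, hρBle⟩ := exists_pos_le hrB
  set ρ : ℝ := min ρA (ρB / 2) with hρdef
  have hρ : 0 < ρ := lt_min hρA (by linarith)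
  set n1 : ℝ := (n : ℝ) + 1 with hn1
  have hn10 : 0 ≤ n1 := by positivity
  set M : ℝ := n * |Real.log ρ| + (2 * (am * C1) + n1 * (am * (n * |Real.log ρ| + |Real.log ρ|))) /
    δ1 + 1 with hM
  have hM0 : 0 ≤ M := by positivity
  refine ⟨Real.exp (4 * M + 1) + (ρ ^ (n + 1))⁻¹ + 1, fun lam hlam => ?_⟩
  have hln : 0 < ‖σ lam‖ := by
    have := Real.exp_pos (4 * M + 1)
    have : 0 < (ρ ^ (n + 1))⁻¹ := by positivity
    linarith
  have hlam0 : σ lam ≠ 0 := norm_pos_iff.1 hln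
  set τ : ℝ := Real.log ‖σ lam‖ with hτ
  have hτM : 4 * M + 1 ≤ τ := by
    rw [hτ, Real.le_log_iff_exp_le hln]
    have : 0 < (ρ ^ (n + 1))⁻¹ := by positivity
    linarith
  have hτpos : 0 < τ := by linarith
  have hτ0 : τ ≠ 0 := hτpos.ne'
  -- the parameters
  set s : Fin (n + 1) → (Fin n → ℝ) → ℂ :=
    Fin.cons (α := fun _ => (Fin n → ℝ) → ℂ) (fun θ => (σ lam)⁻¹ / ∏ j, circ ρ (θ j))
      (fun j θ => circ ρ (θ j)) with hs
  have hs0 : s 0 = fun θ => (σ lam)⁻¹ / ∏ j, circ ρ (θ j) := rfl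
  have hss : ∀ k : Fin n, s k.succ = fun θ => circ ρ (θ k) := fun k => rfl
  have hsg : ∀ k, Good (s k) := by
    intro k
    refine Fin.cases ?_ (fun j => ?_) k
    · rw [hs0]
      exact good_om hρ (inv_ne_zero hlam0)
    · rw [hss]
      exact good_circ hρ j
  have hcp : ∀ θ : Fin n → ℝ, ‖∏ j, circ ρ (θ j)‖ = ρ ^ n := by
    intro θ
    rw [norm_prod, Finset.prod_congr rfl fun j _ => norm_circ hρ.le _, Finset.prod_const,
      Finset.card_univ, Fintype.card_fin]
  have hs0n : ∀ θ, ‖s 0 θ‖ = (‖σ lam‖ * ρ ^ n)⁻¹ := by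
    intro θ
    rw [hs0]
    simp only
    rw [norm_div, norm_inv, hcp, mul_inv]
    rfl
  have hsle : ∀ k θ, ‖s k θ‖ ≤ ρ := by
    intro k θ
    refine Fin.cases ?_ (fun j => ?_) k
    · rw [hs0n, inv_le_comm₀ (by positivity) hρ]
      have h1 : (ρ ^ (n + 1))⁻¹ ≤ ‖σ lam‖ := by
        have := Real.exp_pos (4 * M + 1)
        linarith
      calc ρ⁻¹ = (ρ ^ (n + 1))⁻¹ * ρ ^ n := by
            rw [pow_succ]
            field_simp
        _ ≤ ‖σ lam‖ * ρ ^ n := mul_le_mul_of_nonneg_right h1 (by positivity)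
    · rw [hss]
      simp only
      rw [norm_circ hρ.le]
  have hslw0 : ∀ j θ, lw (s 0) j θ = -(2 * Real.pi * Complex.I) := by
    intro j θ
    have e : s 0 = fun θ => (σ lam)⁻¹ * (∏ j, circ ρ (θ j))⁻¹ := by
      rw [hs0]
      funext θ
      rw [div_eq_mul_inv]
    rw [e, lw_mul (good_const (inv_ne_zero hlam0)) (good_inv (good_prod_circ hρ)), lw_const,
      zero_add, lw_inv (good_prod_circ hρ), lw_prod_circ hρ]
  have hslws : ∀ (k : Fin n) j θ, lw (s k.succ) j θ =
      if j = k then 2 * Real.pi * Complex.I else 0 := by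
    intro k j θ
    rw [hss]
    exact lw_circ hρ k j θ
  have hslw : ∀ k j θ, ‖lw (s k) j θ‖ ≤ 2 * Real.pi := by
    intro k j θ
    refine Fin.cases ?_ (fun k' => ?_) k
    · rw [hslw0, norm_neg, hnpi]
    · rw [hslws]
      split_ifs
      · rw [hnpi]
      · rw [norm_zero]
        positivity
  have hsper : ∀ k θ j, s k (θ + Pi.single j 1) = s k θ := by
    intro k θ j
    have h1 : ∀ i : Fin n, circ ρ ((θ + Pi.single j 1 : Fin n → ℝ) i) = circ ρ (θ i) := fun i =>
      per_circ ρ i θ j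
    refine Fin.cases ?_ (fun k' => ?_) k
    · rw [hs0]
      simp only [h1]
    · rw [hss]
      exact h1 k'
  have hslog : ∀ θ, Real.log ‖s 0 θ‖ = -τ - n * Real.log ρ := by
    intro θ
    rw [hs0n, Real.log_inv, Real.log_mul hln.ne' (by positivity), Real.log_pow]
    ring
  -- the vector of the parameters
  set sv : (Fin n → ℝ) → Fin (n + 1) → ℂ := fun θ j => s j θ with hsv
  have hsvc : ContDiff ℝ 2 sv := contDiff_pi.2 fun j => (hsg j).smooth
  have hsvn : ∀ θ, ‖sv θ‖ ≤ ρ := fun θ =>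
    (pi_norm_le_iff_of_nonneg hρ.le).2 fun j => hsle j θ
  have hsvd : ∀ j θ, ‖fderiv ℝ sv θ (Pi.single j 1)‖ ≤ ρ * (2 * Real.pi) := by
    intro j θ
    have h1 : HasFDerivAt sv (ContinuousLinearMap.pi fun i => fderiv ℝ (s i) θ) θ :=
      hasFDerivAt_pi.2 fun i => (((hsg i).smooth.differentiable (by norm_num)) θ).hasFDerivAt
    rw [h1.fderiv]
    refine (pi_norm_le_iff_of_nonneg (by positivity)).2 fun i => ?_
    have h2 : (ContinuousLinearMap.pi fun i => fderiv ℝ (s i) θ) (Pi.single j 1) i =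
        s i θ * lw (s i) j θ := by
      show fderiv ℝ (s i) θ (Pi.single j 1) = _
      unfold lw
      rw [mul_div_cancel₀ _ ((hsg i).ne_zero θ)]
    rw [h2, norm_mul]
    exact mul_le_mul (hsle i θ) (hslw i j θ) (norm_nonneg _) hρ.le
  have hballs : ∀ θ, dist (sv θ) 0 < ρB := by
    intro θ
    rw [dist_zero_right]
    have h1 := (hsvn θ).trans (min_le_right ρA (ρB / 2))
    linarith
  -- the points
  set P : D.Idx → (Fin n → ℝ) → Fin (n + 1) → ℂ := fun t θ => φ t (sv θ) with hP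
  have hPc : ∀ t, ContDiff ℝ 2 (P t) := by
    intro t
    rw [contDiff_iff_contDiffAt]
    intro θ
    exact (((hball t _ ((hballs θ).trans_le (hρBle _))).1).restrict_scalars ℝ).comp θ
      hsvc.contDiffAt
  have hPpt : ∀ t θ, Pt σ D lam (P t θ) := by
    intro t θ
    show σ lam * ∏ y : (Σ k, Fin (D.r k + 1)), MvPolynomial.eval₂ σ (φ t (sv θ)) (D.L y.1 y.2) = 1
    rw [(hball t _ ((hballs θ).trans_le (hρBle _))).2.1, Fin.prod_univ_succ]
    have h2 : sv θ 0 = (σ lam)⁻¹ / ∏ j, circ ρ (θ j) := rfl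
    have h3 : ∀ k : Fin n, sv θ k.succ = circ ρ (θ k) := fun k => rfl
    rw [h2, Finset.prod_congr rfl fun k _ => h3 k]
    have h4 : ∏ j, circ ρ (θ j) ≠ 0 := (good_prod_circ hρ).ne_zero θ
    field_simp
  have hPper : ∀ t θ j, P t (θ + Pi.single j 1) = P t θ := by
    intro t θ j
    have h1 : sv (θ + Pi.single j 1) = sv θ := by
      funext i
      exact hsper i θ j
    simp only [hP, h1]
  -- the functions `L_y`
  have hg : ∀ t (y : Σ k, Fin (D.r k + 1)),
      Good (fun θ => MvPolynomial.eval₂ σ (P t θ) (D.L y.1 y.2)) ∧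
      (∀ θ, |Real.log ‖MvPolynomial.eval₂ σ (P t θ) (D.L y.1 y.2)‖ -
        ∑ j, (if y = nd t j then (1 : ℝ) else 0) * Real.log ‖s j θ‖| ≤ C1) ∧
      ∀ i θ, ‖lw (fun θ => MvPolynomial.eval₂ σ (P t θ) (D.L y.1 y.2)) i θ -
        ∑ j, (if y = nd t j then (1 : ℂ) else 0) * lw (s j) i θ‖ ≤ δ0 := by
    intro t y
    obtain ⟨a1, a2, a3⟩ := hcomp (t, y) ρ ((min_le_left _ _).trans (hρAle (t, y))) n sv hsvc hsvn
      hsvd
    have a4 := hC1 (t, y)
    by_cases hy : ∃ j, y = nd t j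
    · obtain ⟨j, rfl⟩ := hy
      have hval : (fun θ => MvPolynomial.eval₂ σ (P t θ) (D.L (nd t j).1 (nd t j).2)) = fun θ =>
          s j θ * B t (nd t j) (sv θ) := by
        funext θ
        exact (hball t _ ((hballs θ).trans_le (hρBle _))).2.2.1 j
      have e1 : ∀ θ, ∑ i, (if nd t j = nd t i then (1 : ℝ) else 0) * Real.log ‖s i θ‖ =
          Real.log ‖s j θ‖ := by
        intro θ
        rw [Finset.sum_eq_single j]
        · rw [if_pos rfl, one_mul]
        · intro i _ hi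
          rw [if_neg fun h => hi (nd_injective t h).symm, zero_mul]
        · intro h
          exact absurd (Finset.mem_univ _) h
      have e2 : ∀ l θ, ∑ i, (if nd t j = nd t i then (1 : ℂ) else 0) * lw (s i) l θ =
          lw (s j) l θ := by
        intro l θ
        rw [Finset.sum_eq_single j]
        · rw [if_pos rfl, one_mul]
        · intro i _ hi
          rw [if_neg fun h => hi (nd_injective t h).symm, zero_mul]
        · intro h
          exact absurd (Finset.mem_univ _) h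
      simp only [e1, e2]
      rw [hval]
      refine ⟨(hsg j).mul a1, fun θ => ?_, fun i θ => ?_⟩
      · have h1 : MvPolynomial.eval₂ σ (P t θ) (D.L (nd t j).1 (nd t j).2) =
          s j θ * B t (nd t j) (sv θ) := congrFun hval θ
        rw [h1, norm_mul, Real.log_mul (norm_ne_zero_iff.2 ((hsg j).ne_zero θ))
          (norm_ne_zero_iff.2 (a1.ne_zero θ)), add_sub_cancel_left]
        exact (a2 θ).trans a4
      · rw [lw_mul (hsg j) a1, add_sub_cancel_left]
        exact a3 i θ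
    · push Not at hy
      have hval : (fun θ => MvPolynomial.eval₂ σ (P t θ) (D.L y.1 y.2)) = fun θ =>
          B t y (sv θ) := by
        funext θ
        exact (hball t _ ((hballs θ).trans_le (hρBle _))).2.2.2 y hy
      simp only [if_neg (hy _), zero_mul, Finset.sum_const_zero, sub_zero]
      rw [hval]
      refine ⟨a1, fun θ => ?_, a3⟩
      have h1 : MvPolynomial.eval₂ σ (P t θ) (D.L y.1 y.2) = B t y (sv θ) := congrFun hval θ
      rw [h1]
      exact (a2 θ).trans a4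
  refine ⟨fun t => mkH (hPc t) (hPpt t) (hPper t), fun t θ x => (hPpt t θ).ev_cst x,
    fun t t' => ?_⟩
  set Γ := mkH (hPc t) (hPpt t) (hPper t) with hΓ
  change |Γ.reg (symb fun j => D.u lam (t'.1 j)) / τ - (2 * Real.pi) ^ n * (RH t t').det| ≤ ε
  rw [Torus.reg_symb]
  have hfn : ∀ y : (Σ k, Fin (D.r k)), Γ.fn (D.u lam y : D.XRing lam) = fun θ =>
      MvPolynomial.eval₂ σ (P t θ) (D.L y.1 y.2.succ) ^ D.a y.1 0 *
        (MvPolynomial.eval₂ σ (P t θ) (D.L y.1 0) ^ D.a y.1 y.2.succ)⁻¹ := by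
    intro y
    funext θ
    exact (hPpt t θ).ev_u y
  have hpm : ∀ (y : Σ k, Fin (D.r k)) j, pm t y j = (D.a y.1 0 : ℝ) *
      (if (⟨y.1, y.2.succ⟩ : Σ k, Fin (D.r k + 1)) = nd t j then (1 : ℝ) else 0) := by
    rintro ⟨k, i⟩ j
    unfold pm nd
    have hiff : ((⟨k, i.succ⟩ : Σ k, Fin (D.r k + 1)) = ⟨(t.1 j).1, (t.1 j).2.succ⟩) ↔
        (⟨k, i⟩ : Σ k, Fin (D.r k)) = t.1 j := by
      obtain ⟨k', i'⟩ := t.1 j
      constructor
      · intro h
        obtain ⟨h1, h2⟩ := Sigma.mk.inj_iff.1 h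
        have h1' : k = k' := h1
        subst h1'
        rw [Fin.succ_inj.1 (eq_of_heq h2)]
      · intro h
        obtain ⟨h1, h2⟩ := Sigma.mk.inj_iff.1 h
        subst h1
        rw [eq_of_heq h2]
    by_cases h : (⟨k, i⟩ : Σ k, Fin (D.r k)) = t.1 j
    · rw [if_pos h, if_pos (hiff.2 h), mul_one]
    · rw [if_neg h, if_neg (fun h' => h (hiff.1 h')), mul_zero]
  have hpm0 : ∀ (k : Fin q) j, (if (⟨k, 0⟩ : Σ k, Fin (D.r k + 1)) = nd t j then (1 : ℝ) else 0)
      = 0 := fun k j => if_neg (nd_ne_zero t j k)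
  have hpm0' : ∀ (k : Fin q) j, (if (⟨k, 0⟩ : Σ k, Fin (D.r k + 1)) = nd t j then (1 : ℂ) else 0)
      = 0 := fun k j => if_neg (nd_ne_zero t j k)
  -- the logarithms and the logarithmic derivatives of the entries
  have hlogu : ∀ (y : Σ k, Fin (D.r k)) θ, |Real.log ‖Γ.fn (D.u lam y : D.XRing lam) θ‖ -
      ∑ j, pm t y j * Real.log ‖s j θ‖| ≤ 2 * (am * C1) := by
    intro y θ
    obtain ⟨g1, l1, -⟩ := hg t ⟨y.1, y.2.succ⟩
    obtain ⟨g2, l2, -⟩ := hg t ⟨y.1, 0⟩
    have l1' := l1 θ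
    have l2' := l2 θ
    simp only [hpm0, zero_mul, Finset.sum_const_zero, sub_zero] at l2'
    rw [congrFun (hfn y) θ, norm_mul, norm_inv, norm_pow, norm_pow,
      Real.log_mul (pow_ne_zero _ (norm_ne_zero_iff.2 (g1.ne_zero θ)))
        (inv_ne_zero (pow_ne_zero _ (norm_ne_zero_iff.2 (g2.ne_zero θ)))), Real.log_inv,
      Real.log_pow, Real.log_pow]
    have e1 : (D.a y.1 0 : ℝ) * Real.log ‖MvPolynomial.eval₂ σ (P t θ) (D.L y.1 y.2.succ)‖ +
        -((D.a y.1 y.2.succ : ℝ) * Real.log ‖MvPolynomial.eval₂ σ (P t θ) (D.L y.1 0)‖) -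
        ∑ j, pm t y j * Real.log ‖s j θ‖ =
        (D.a y.1 0 : ℝ) * (Real.log ‖MvPolynomial.eval₂ σ (P t θ) (D.L y.1 y.2.succ)‖ -
          ∑ j, (if (⟨y.1, y.2.succ⟩ : Σ k, Fin (D.r k + 1)) = nd t j then (1 : ℝ) else 0) *
            Real.log ‖s j θ‖) -
        (D.a y.1 y.2.succ : ℝ) * Real.log ‖MvPolynomial.eval₂ σ (P t θ) (D.L y.1 0)‖ := by
      simp only [hpm, mul_assoc]
      rw [← Finset.mul_sum]
      ring
    rw [e1]
    refine (abs_sub _ _).trans ?_
    rw [abs_mul, abs_mul, Nat.abs_cast, Nat.abs_cast]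
    have b1 := mul_le_mul (ham' y.1 0) l1' (abs_nonneg _) ham0
    have b2 := mul_le_mul (ham' y.1 y.2.succ) l2' (abs_nonneg _) ham0
    linarith
  have hlwu : ∀ (y : Σ k, Fin (D.r k)) i θ, ‖lw (Γ.fn (D.u lam y : D.XRing lam)) i θ -
      ∑ j, (pm t y j : ℂ) * lw (s j) i θ‖ ≤ 2 * (am * δ0) := by
    intro y i θ
    obtain ⟨g1, -, l1⟩ := hg t ⟨y.1, y.2.succ⟩
    obtain ⟨g2, -, l2⟩ := hg t ⟨y.1, 0⟩
    have l1' := l1 i θ
    have l2' := l2 i θ
    simp only [hpm0', zero_mul, Finset.sum_const_zero, sub_zero] at l2'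
    rw [hfn, lw_mul (good_pow g1 _) (good_inv (good_pow g2 _)), lw_inv (good_pow g2 _), lw_pow g1,
      lw_pow g2]
    set a := lw (fun θ => MvPolynomial.eval₂ σ (P t θ) (D.L y.1 y.2.succ)) i θ with ha
    set b := lw (fun θ => MvPolynomial.eval₂ σ (P t θ) (D.L y.1 0)) i θ with hb
    have hcast : ∀ j, ((pm t y j : ℝ) : ℂ) = (D.a y.1 0 : ℂ) *
        (if (⟨y.1, y.2.succ⟩ : Σ k, Fin (D.r k + 1)) = nd t j then (1 : ℂ) else 0) := by
      intro j
      rw [hpm]
      split_ifs <;> simp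
    have e1 : (D.a y.1 0 : ℂ) * a + -((D.a y.1 y.2.succ : ℂ) * b) -
        ∑ j, (pm t y j : ℂ) * lw (s j) i θ =
        (D.a y.1 0 : ℂ) * (a -
          ∑ j, (if (⟨y.1, y.2.succ⟩ : Σ k, Fin (D.r k + 1)) = nd t j then (1 : ℂ) else 0) *
            lw (s j) i θ) - (D.a y.1 y.2.succ : ℂ) * b := by
      simp only [hcast, mul_assoc]
      rw [← Finset.mul_sum]
      ring
    rw [e1]
    refine (norm_sub_le _ _).trans ?_
    rw [norm_mul, norm_mul, Complex.norm_natCast, Complex.norm_natCast]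
    have b1 := mul_le_mul (ham' y.1 0) l1' (norm_nonneg _) ham0
    have b2 := mul_le_mul (ham' y.1 y.2.succ) l2' (norm_nonneg _) ham0
    linarith
  have hpmle : ∀ (y : Σ k, Fin (D.r k)) j, |pm t y j| ≤ am := by
    intro y j
    unfold pm
    split_ifs
    · rw [abs_of_nonneg (Nat.cast_nonneg' _)]
      exact ham' y.1 0
    · rw [abs_zero]
      exact ham0
  refine hclose (t, t') _ _ hτ0 (fun l => Γ.good _) (fun l θ => ?_) (fun l i θ => ?_)
  · refine lt_of_lt_of_le ?_ (hδ1le (t, t'))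
    have h1 := hlogu (t'.1 l) θ
    -- the parameters
    have h2 : ∀ j, ∃ c : ℝ, |c| ≤ n * |Real.log ρ| + |Real.log ρ| ∧
        Real.log ‖s j θ‖ = τ * RX (fun _ : Fin (n + 1) => (1 : ℝ)) j 0 + c := by
      intro j
      refine Fin.cases ?_ (fun k => ?_) j
      · refine ⟨-(n * Real.log ρ), ?_, ?_⟩
        · rw [abs_neg, abs_mul, abs_of_nonneg (Nat.cast_nonneg' n)]
          have := abs_nonneg (Real.log ρ)
          linarith
        · have hR : RX (fun _ : Fin (n + 1) => (1 : ℝ)) 0 0 = -1 := by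
            unfold RX
            rw [Matrix.of_apply, Fin.cons_zero, if_pos rfl]
          rw [hslog, hR]
          ring
      · refine ⟨Real.log ρ, ?_, ?_⟩
        · have : 0 ≤ (n : ℝ) * |Real.log ρ| := by positivity
          linarith
        · have hR : RX (fun _ : Fin (n + 1) => (1 : ℝ)) k.succ 0 = 0 := by
            unfold RX
            rw [Matrix.of_apply, Fin.cons_zero, if_neg (Fin.succ_ne_zero k)]
          rw [hR, mul_zero, zero_add]
          have h3 : s k.succ θ = circ ρ (θ k) := rfl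
          rw [h3, norm_circ hρ.le]
    choose c hc hc2 using h2
    have h3 : ∑ j, pm t (t'.1 l) j * Real.log ‖s j θ‖ = τ * RH t t' l 0 +
        ∑ j, pm t (t'.1 l) j * c j := by
      rw [RH_apply, Finset.mul_sum, ← Finset.sum_add_distrib]
      exact Finset.sum_congr rfl fun j _ => by
        rw [hc2]
        ring
    have h4 : Real.log ‖Γ.fn (D.u lam (t'.1 l) : D.XRing lam) θ‖ / τ - RH t t' l 0 =
        ((Real.log ‖Γ.fn (D.u lam (t'.1 l) : D.XRing lam) θ‖ -
          ∑ j, pm t (t'.1 l) j * Real.log ‖s j θ‖) + ∑ j, pm t (t'.1 l) j * c j) / τ := by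
      rw [h3]
      field_simp
      ring
    rw [h4, abs_div, abs_of_pos hτpos, div_lt_iff₀ hτpos]
    refine lt_of_le_of_lt (abs_add_le _ _) ?_
    have h5 : |∑ j, pm t (t'.1 l) j * c j| ≤ n1 * (am * (n * |Real.log ρ| + |Real.log ρ|)) := by
      refine (Finset.abs_sum_le_sum_abs _ _).trans
        ((Finset.sum_le_sum (g := fun _ => am * (n * |Real.log ρ| + |Real.log ρ|))
          fun j _ => ?_).trans (le_of_eq ?_))
      · rw [abs_mul]
        exact mul_le_mul (hpmle _ j) (hc j) (abs_nonneg _) ham0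
      · rw [Finset.sum_const, Finset.card_univ, Fintype.card_fin, nsmul_eq_mul, hn1]
        push_cast
        rfl
    have h6 : (2 * (am * C1) + n1 * (am * (n * |Real.log ρ| + |Real.log ρ|))) / δ1 < τ := by
      have : 0 ≤ (n : ℝ) * |Real.log ρ| := by positivity
      linarith
    rw [div_lt_iff₀ hδ1] at h6
    linarith
  · refine lt_of_lt_of_le (lt_of_le_of_lt ?_ hδ0le) (hδ1le (t, t'))
    have h1 := hlwu (t'.1 l) i θ
    have h2 : ∑ j, (pm t (t'.1 l) j : ℂ) * lw (s j) i θ =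
        2 * Real.pi * Complex.I * (RH t t' l i.succ : ℝ) := by
      rw [RH_apply, Complex.ofReal_sum, Finset.mul_sum]
      have hterm : ∀ j, (pm t (t'.1 l) j : ℂ) * lw (s j) i θ = 2 * Real.pi * Complex.I *
          ((pm t (t'.1 l) j * RX (fun _ : Fin (n + 1) => (1 : ℝ)) j i.succ : ℝ) : ℂ) := by
        intro j
        have hR : RX (fun _ : Fin (n + 1) => (1 : ℝ)) j i.succ =
          if j = 0 then -1 else if j = i.succ then 1 else 0 := rfl
        rw [hR]
        clear hR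
        refine Fin.cases ?_ (fun k => ?_) j
        · rw [hslw0, if_pos rfl]
          push_cast
          ring
        · rw [hslws, if_neg (Fin.succ_ne_zero k)]
          by_cases hjk : i = k
          · rw [if_pos hjk, if_pos (by rw [hjk])]
            push_cast
            ring
          · rw [if_neg hjk, if_neg (fun h => hjk (Fin.succ_injective _ h).symm)]
            push_cast
            ring
      exact Finset.sum_congr rfl fun j _ => hterm j
    rw [← h2]
    exact h1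

end Pool.Agent.Run7.h954.MX
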