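import Pool.Agent.Run7.h954.MX.FDefs
import Pool.Agent.Run7.h954.MX.HReg
import Pool.Agent.Run7.h954.FP.Sm
set_option autoImplicit false

/-!
Small tori at the transversal common zeros in the open part `∏ L ≠ 0` of the affine space.
-/

namespace Pool.Agent.Run7.h954.MX

open Filter Topology

open Pool.Agent.TH826.MK (KQ symb Torus Good Per lw circ lw_mul lw_prod lw_const good_const
  norm_circ pairing good_prod)

open Pool.Agent.TH826.SX (pairing_close good_circ lw_circ circ_ne_zero)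

open Pool.Agent.N65.TL

open Pool.Agent.N65.TE (exists_small_root)

open Pool.Agent.TH577.UA (good_pow lw_pow)

open Pool.Agent.Run7.h954.FP (exists_pos_le exists_ge Sm sf good_sf norm_sf lw_sf_le
  sf_add_single inv_pow_le)

/-- Functions which vanish at `0` are small at small vectors. -/
theorem exists_smV {V : Type*} [NormedAddCommGroup V] [NormedSpace ℂ V] {E : V → ℂ}
    (h : ContDiffAt ℂ 2 E 0) (h0 : E 0 = 0) {B η : ℝ} (hB : 0 ≤ B) (hη : 0 < η) :
    ∃ r : ℝ, 0 < r ∧ ∀ (ρ : ℝ), ρ ≤ r → ∀ (D : ℕ) (s : (Fin D → ℝ) → V),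
      ContDiff ℝ 2 s → (∀ θ, ‖s θ‖ ≤ ρ) →
      (∀ j θ, ‖fderiv ℝ s θ (Pi.single j 1)‖ ≤ ρ * B) → Sm η (fun θ => E (s θ)) := by
  have hd : ContinuousAt (fderiv ℂ E) 0 := (h.fderiv_right (m := 1) (by norm_num)).continuousAt
  set C : ℝ := ‖fderiv ℂ E 0‖ + 1 with hC
  have hC0 : 0 ≤ C := by positivity
  have e1 : ∀ᶠ x in 𝓝 (0 : V), ‖E x‖ < η := by
    refine h.continuousAt.norm.eventually_lt continuousAt_const ?_
    rwa [h0, norm_zero]
  have e2 := hd.norm.eventually_lt continuousAt_const (lt_add_one ‖fderiv ℂ E 0‖)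
  have e3 : ∀ᶠ ζ in 𝓝 (0 : V), ContDiffAt ℂ 2 E ζ := h.eventually (by norm_num)
  obtain ⟨r, hr, hball⟩ := Metric.eventually_nhds_iff.1 (e1.and (e2.and e3))
  have hCB : 0 ≤ C * B := by positivity
  set r' : ℝ := min (r / 2) (η / (C * B + 1)) with hr'
  have hr'0 : 0 < r' := lt_min (by linarith) (div_pos hη (by linarith))
  refine ⟨r', hr'0, fun ρ hρ D s hs hsr hsB => ?_⟩
  have hlt : ∀ θ, dist (s θ) 0 < r := fun θ => by
    rw [dist_zero_right]
    have h1 := ((hsr θ).trans hρ).trans (min_le_left _ _)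
    linarith
  refine ⟨?_, fun θ => (hball (hlt θ)).1.le, fun θ j => ?_⟩
  · rw [contDiff_iff_contDiffAt]
    intro θ
    exact ((hball (hlt θ)).2.2.restrict_scalars ℝ).comp θ hs.contDiffAt
  · obtain ⟨-, h2, h1⟩ := hball (hlt θ)
    have hd : HasFDerivAt s (fderiv ℝ s θ) θ := ((hs.differentiable (by norm_num)) θ).hasFDerivAt
    have h4 : HasFDerivAt E ((fderiv ℂ E (s θ)).restrictScalars ℝ) (s θ) :=
      ((h1.differentiableAt (by norm_num)).hasFDerivAt).restrictScalars ℝ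
    have h5 := (h4.comp θ hd).fderiv
    have h6 : fderiv ℝ (fun θ => E (s θ)) θ (Pi.single j 1) =
        fderiv ℂ E (s θ) (fderiv ℝ s θ (Pi.single j 1)) :=
      DFunLike.congr_fun h5 (Pi.single j 1)
    rw [h6]
    calc _ ≤ ‖fderiv ℂ E (s θ)‖ * ‖fderiv ℝ s θ (Pi.single j 1)‖ :=
          ContinuousLinearMap.le_opNorm _ _
      _ ≤ C * (r' * B) := mul_le_mul h2.le ((hsB j θ).trans
          (mul_le_mul_of_nonneg_right hρ hB)) (norm_nonneg _) hC0
      _ = r' * (C * B) := by ring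
      _ ≤ η / (C * B + 1) * (C * B) := mul_le_mul_of_nonneg_right (min_le_right _ _) hCB
      _ ≤ η := by
        rw [div_mul_eq_mul_div, div_le_iff₀ (by linarith)]
        nlinarith

section pts

variable {K : Type*} [Field K] {N q : ℕ} {σ : K →+* ℂ} {D : Data K N q}

/-- The complex points. -/
def BPt (σ : K →+* ℂ) (D : Data K N q) (p : Fin N → ℂ) : Prop :=
  ∀ y : (Σ k, Fin (D.r k + 1)), MvPolynomial.eval₂ σ p (D.L y.1 y.2) ≠ 0

/-- the coordinates -/
noncomputable def bcrd (σ : K →+* ℂ) (D : Data K N q) (p : Fin N → ℂ) (i : Option (Fin N)) : ℂ :=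
  i.elim (∏ y : (Σ k, Fin (D.r k + 1)), MvPolynomial.eval₂ σ p (D.L y.1 y.2))⁻¹ p

variable {p : Fin N → ℂ}

theorem bpev (P : MvPolynomial (Fin N) K) :
    MvPolynomial.eval₂Hom σ (bcrd σ D p) (MvPolynomial.rename some P) =
      MvPolynomial.eval₂ σ p P := by
  rw [MvPolynomial.coe_eval₂Hom, MvPolynomial.eval₂_rename]
  rfl

/-- evaluation at a point -/
noncomputable def BPt.ev (h : BPt σ D p) : D.BRing →+* ℂ :=
  Ideal.Quotient.lift (Ideal.span {MvPolynomial.X none * MvPolynomial.rename some D.F - 1})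
    (MvPolynomial.eval₂Hom σ (bcrd σ D p)) (by
    intro q hq
    have hle : Ideal.span {MvPolynomial.X none * MvPolynomial.rename some D.F - 1} ≤
        RingHom.ker (MvPolynomial.eval₂Hom σ (bcrd σ D p)) := by
      rw [Ideal.span_le]
      intro q hq
      rw [Set.mem_singleton_iff] at hq
      subst hq
      show MvPolynomial.eval₂Hom σ (bcrd σ D p) _ = 0
      rw [map_sub, map_mul, map_one, bpev, MvPolynomial.eval₂Hom_X']
      unfold Data.F
      rw [MvPolynomial.eval₂_prod]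
      show (∏ y : (Σ k, Fin (D.r k + 1)), MvPolynomial.eval₂ σ p (D.L y.1 y.2))⁻¹ * _ - 1 = 0
      rw [inv_mul_cancel₀ (Finset.prod_ne_zero_iff.2 fun y _ => h y), sub_self]
    exact hle hq)

theorem BPt.ev_mk (h : BPt σ D p) (P : MvPolynomial (Option (Fin N)) K) :
    h.ev (D.bmk P) = MvPolynomial.eval₂ σ (bcrd σ D p) P := Ideal.Quotient.lift_mk _ _ _

theorem BPt.ev_bp (h : BPt σ D p) (P : MvPolynomial (Fin N) K) :
    h.ev (D.bp P) = MvPolynomial.eval₂ σ p P := by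
  unfold Data.bp
  rw [RingHom.comp_apply]
  exact (h.ev_mk _).trans (bpev P)

theorem BPt.ev_cst (h : BPt σ D p) : h.ev.comp (algebraMap K D.BRing) = σ := by
  refine RingHom.ext fun c => ?_
  have h1 : algebraMap K D.BRing c = D.bmk (MvPolynomial.C c) := rfl
  rw [RingHom.comp_apply, h1, h.ev_mk, MvPolynomial.eval₂_C]

theorem BPt.ev_L (h : BPt σ D p) (y : Σ k, Fin (D.r k + 1)) :
    h.ev (D.bL y : D.BRing) = MvPolynomial.eval₂ σ p (D.L y.1 y.2) := by
  have h1 : ((D.bL y : (D.BRing)ˣ) : D.BRing) = D.bp (D.L y.1 y.2) := rfl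
  rw [h1, h.ev_bp]

theorem BPt.ev_u (h : BPt σ D p) (y : Σ k, Fin (D.r k)) :
    h.ev (D.bu y : D.BRing) = MvPolynomial.eval₂ σ p (D.L y.1 y.2.succ) ^ D.a y.1 0 *
      (MvPolynomial.eval₂ σ p (D.L y.1 0) ^ D.a y.1 y.2.succ)⁻¹ := by
  have h1 := map_units_inv (h.ev : D.BRing →* ℂ) (D.bL ⟨y.1, 0⟩ ^ D.a y.1 y.2.succ)
  unfold Data.bu
  rw [div_eq_mul_inv, Units.val_mul, map_mul]
  congr 1
  · rw [Units.val_pow_eq_pow_val, map_pow, h.ev_L]
  · refine h1.trans ?_
    congr 1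
    show h.ev ((D.bL ⟨y.1, 0⟩ ^ D.a y.1 y.2.succ : (D.BRing)ˣ) : D.BRing) = _
    rw [Units.val_pow_eq_pow_val, map_pow, h.ev_L]

theorem BPt.ev_Phi0 (h : BPt σ D p) (g : MvPolynomial (Fin N) K)
    (w : (Σ k, Fin (D.r k + 1)) → ℕ) :
    h.ev (D.Phi0 g w) = MvPolynomial.eval₂ σ p g *
      ∏ y : (Σ k, Fin (D.r k + 1)), MvPolynomial.eval₂ σ p (D.L y.1 y.2) ^ (w y + 1) := by
  unfold Data.Phi0
  rw [map_mul, map_prod, h.ev_bp]
  simp only [map_pow, h.ev_L]

theorem BPt.congr {p' : Fin N → ℂ} (h : BPt σ D p) (h' : BPt σ D p') (hp : p = p') :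
    h.ev = h'.ev := by
  subst hp
  rfl

theorem contDiff_bpt {e : ℕ} {P : (Fin e → ℝ) → Fin N → ℂ}
    (hP : ContDiff ℝ 2 P) (h : ∀ θ, BPt σ D (P θ)) (b : D.BRing) :
    ContDiff ℝ 2 fun θ => (h θ).ev b := by
  obtain ⟨Q, rfl⟩ : ∃ Q, D.bmk Q = b := Ideal.Quotient.mk_surjective b
  have e1 : (fun θ => (h θ).ev (D.bmk Q)) = fun θ =>
      ∑ d ∈ Q.support, σ (Q.coeff d) * ∏ i ∈ d.support, bcrd σ D (P θ) i ^ (d i) := by
    funext θ
    rw [(h θ).ev_mk]
    exact MvPolynomial.eval₂_eq _ _ _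
  rw [e1]
  refine ContDiff.sum fun d _ => contDiff_const.mul (contDiff_prod fun i _ => ContDiff.pow ?_ _)
  unfold bcrd
  rcases i with _ | i
  · simp only [Option.elim_none]
    have h1 : ∀ y : (Σ k, Fin (D.r k + 1)),
        ContDiff ℝ 2 fun θ => MvPolynomial.eval₂ σ (P θ) (D.L y.1 y.2) := fun y =>
      ((contDiff_mv σ (D.L y.1 y.2)).restrict_scalars ℝ).comp hP
    refine ContDiff.inv (contDiff_prod fun y _ => h1 y) fun θ => ?_
    exact Finset.prod_ne_zero_iff.2 fun y _ => h θ y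
  · simp only [Option.elim_some]
    exact (contDiff_apply ℝ ℂ i).comp hP

end pts

/-- the orders of the units in the coordinates -/
theorem pm_eq {K : Type*} [Field K] {n q : ℕ} {D : Data K (n + 1) q} (t : D.Idx)
    (y : Σ k, Fin (D.r k)) (j : Fin (n + 1)) : pm t y j = (D.a y.1 0 : ℝ) *
      (open Classical in if (⟨y.1, y.2.succ⟩ : Σ k, Fin (D.r k + 1)) = nd t j then (1 : ℝ)
        else 0) := by
  classical
  obtain ⟨k, i⟩ := y
  unfold pm nd
  have hiff : ((⟨k, i.succ⟩ : Σ k, Fin (D.r k + 1)) = ⟨(t.1 j).1, (t.1 j).2.succ⟩) ↔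
      (⟨k, i⟩ : Σ k, Fin (D.r k)) = t.1 j := by
    obtain ⟨k', i'⟩ := t.1 j
    constructor
    · intro h
      obtain ⟨h1, h2⟩ := Sigma.mk.inj_iff.1 h
      have h1' : k = k' := h1
      subst h1'
      rw [Fin.succ_inj.1 (eq_of_heq h2)]
    · intro h
      obtain ⟨h1, h2⟩ := Sigma.mk.inj_iff.1 h
      subst h1
      rw [eq_of_heq h2]
  by_cases h : (⟨k, i⟩ : Σ k, Fin (D.r k)) = t.1 j
  · rw [if_pos h, if_pos (hiff.2 h), mul_one]
  · rw [if_neg h, if_neg (fun h' => h (hiff.1 h')), mul_zero]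

/-- The small tori at a node. -/
theorem baseTorus {K : Type*} [Field K] {n q : ℕ} (D : Data K (n + 1) q) (σ : K →+* ℂ)
    (g : MvPolynomial (Fin (n + 1)) K) (hz : D.ZerosG g σ) (w : (Σ k, Fin (D.r k + 1)) → ℕ)
    {k1 : ℕ} (hk10 : 0 < k1) (t : D.Idx) :
    BaseTorus σ (D.Phi0 g w) k1 D.bu (fun j => -((w (nd t j) : ℝ) + 1))
      (fun y j => -((k1 : ℝ) * pm t y j)) := by
  classical
  intro δ hδ
  have hpi := Real.pi_pos
  have hnpi : ‖(2 * Real.pi * Complex.I : ℂ)‖ = 2 * Real.pi := by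
    rw [norm_mul, norm_mul, Complex.norm_I, Complex.norm_real, Complex.norm_ofNat, mul_one,
      Real.norm_eq_abs, abs_of_pos Real.pi_pos]
  have hk1R : (1 : ℝ) ≤ k1 := by exact_mod_cast hk10
  -- the exponents
  obtain ⟨am, ham0, ham⟩ := exists_ge fun y : Σ k, Fin (D.r k + 1) => (D.a y.1 y.2 : ℝ)
  have ham' : ∀ k i, (D.a k i : ℝ) ≤ am := fun k i => ham ⟨k, i⟩
  obtain ⟨wm, hwm0, hwm⟩ := exists_ge fun y : Σ k, Fin (D.r k + 1) => ((w y : ℝ) + 1)
  set δ0 : ℝ := δ / (4 * (am + 1)) with hδ0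
  have hδ0pos : 0 < δ0 := by positivity
  have hδ0eq : δ0 * (4 * (am + 1)) = δ := by
    rw [hδ0]
    field_simp
  have hδ0le : 2 * (am * δ0) ≤ δ := by nlinarith
  have hδ0le' : δ0 ≤ δ := by nlinarith
  -- the germ
  obtain ⟨p, hp0, hpJ, hpne, hpg⟩ := hz t
  obtain ⟨φ, hφc, hφ0, A, hAc, hA0, hA⟩ : ∃ φ : (Fin (n + 1) → ℂ) → (Fin (n + 1) → ℂ),
      ContDiffAt ℂ 2 φ 0 ∧ MvPolynomial.eval₂ σ (φ 0) g ≠ 0 ∧
      ∃ B : (Σ k, Fin (D.r k + 1)) → (Fin (n + 1) → ℂ) → ℂ, (∀ y, ContDiffAt ℂ 2 (B y) 0) ∧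
        (∀ y, B y 0 ≠ 0) ∧ ∀ᶠ s in 𝓝 (0 : Fin (n + 1) → ℂ),
          (∀ j, MvPolynomial.eval₂ σ (φ s) (D.L (nd t j).1 (nd t j).2) = s j * B (nd t j) s) ∧
          ∀ y : (Σ k, Fin (D.r k + 1)), (∀ j, y ≠ nd t j) →
            MvPolynomial.eval₂ σ (φ s) (D.L y.1 y.2) = B y s := by
    obtain ⟨φ, hφc, hφ0, hφ⟩ := exists_inv (p := p)
      (f := fun j x => MvPolynomial.eval₂ σ x (D.L (nd t j).1 (nd t j).2))
      (fun j => contDiff_mv σ _) hp0 (J := Matrix.of fun j l => MvPolynomial.eval₂ σ p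
        (MvPolynomial.pderiv l (D.L (nd t j).1 (nd t j).2)))
      (fun j => hasFDerivAt_mv σ _ p) hpJ
    refine ⟨φ, hφc, by rw [hφ0]; exact hpg, fun y s => if ∃ j, y = nd t j then 1 else
      MvPolynomial.eval₂ σ (φ s) (D.L y.1 y.2), fun y => ?_, fun y => ?_, ?_⟩
    · by_cases h : ∃ j, y = nd t j
      · simp only [if_pos h]
        exact contDiffAt_const
      · simp only [if_neg h]
        exact ContDiffAt.comp (g := fun x => MvPolynomial.eval₂ σ x (D.L y.1 y.2))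
          (0 : Fin (n + 1) → ℂ) (contDiff_mv σ _).contDiffAt hφc
    · by_cases h : ∃ j, y = nd t j
      · simp only [if_pos h]
        exact one_ne_zero
      · simp only [if_neg h, hφ0]
        exact hpne y (not_exists.1 h)
    · filter_upwards [hφ] with s hs
      refine ⟨fun j => ?_, fun y hy => ?_⟩
      · show _ = s j * (if ∃ i, nd t j = nd t i then (1 : ℂ) else _)
        rw [if_pos ⟨j, rfl⟩, mul_one]
        exact hs j
      · show _ = (if ∃ j, y = nd t j then (1 : ℂ) else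
          MvPolynomial.eval₂ σ (φ s) (D.L y.1 y.2))
        rw [if_neg (not_exists.2 hy)]
  choose rA CA hrA hCA hcomp using fun y : (Σ k, Fin (D.r k + 1)) =>
    exists_compV (hAc y) (hA0 y) (B := 2 * Real.pi * k1) (by positivity) hδ0pos
  obtain ⟨ρA, hρA, hρAle⟩ := exists_pos_le hrA
  obtain ⟨C1, hC10, hC1⟩ := exists_ge CA
  obtain ⟨rB, hrB, hball⟩ := Metric.eventually_nhds_iff.1
    ((hφc.eventually (by norm_num)).and hA)
  -- the function `Ψ`
  set Ψ : (Fin (n + 1) → ℂ) → ℂ := fun x => MvPolynomial.eval₂ σ (φ x) g *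
    ∏ y, A y x ^ (w y + 1) with hΨ
  have hΨc : ContDiffAt ℂ 2 Ψ 0 := by
    refine ContDiffAt.mul ?_ (contDiffAt_prod fun y _ => (hAc y).pow _)
    exact ContDiffAt.comp (g := fun x => MvPolynomial.eval₂ σ x g)
      (0 : Fin (n + 1) → ℂ) (contDiff_mv σ _).contDiffAt hφc
  have hΨ0 : Ψ 0 ≠ 0 :=
    mul_ne_zero hφ0 (Finset.prod_ne_zero_iff.2 fun y _ => pow_ne_zero _ (hA0 y))
  obtain ⟨η1, hη1, hroot⟩ := exists_small_root hk10 hδ0pos
  obtain ⟨rC, hrC, hsm⟩ := exists_smV (E := fun x => Ψ x / Ψ 0 - 1)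
    ((hΨc.div_const _).sub contDiffAt_const) (by
      show Ψ 0 / Ψ 0 - 1 = 0
      rw [div_self hΨ0, sub_self]) (B := 2 * Real.pi * k1) (by positivity) hη1
  set ρ : ℝ := 1 + 1 / ρA + 2 / rB + 1 / rC with hρdef
  have h1A : 0 < 1 / ρA := by positivity
  have h1B : 0 < 2 / rB := by positivity
  have h1C : 0 < 1 / rC := by positivity
  have hρ1 : 1 ≤ ρ := by linarith
  have hρ : 0 < ρ := by linarith
  have hlogρ : 0 ≤ Real.log ρ := Real.log_nonneg hρ1
  have hinv : (ρ⁻¹) ^ k1 ≤ ρ⁻¹ := inv_pow_le hk10 hρ1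
  have hinvA : (ρ⁻¹) ^ k1 ≤ ρA := by
    refine hinv.trans ?_
    rw [inv_le_comm₀ hρ hρA, ← one_div]
    linarith
  have hinvC : (ρ⁻¹) ^ k1 ≤ rC := by
    refine hinv.trans ?_
    rw [inv_le_comm₀ hρ hrC, ← one_div]
    linarith
  have hinvB : (ρ⁻¹) ^ k1 < rB := by
    refine hinv.trans_lt ?_
    rw [inv_lt_comm₀ hρ hrB, ← one_div]
    have h2 : 1 / rB ≤ 2 / rB := div_le_div_of_nonneg_right (by norm_num) hrB.le
    linarith
  set nn : ℝ := (n : ℝ) + 1 with hnn
  have hnn0 : 0 ≤ nn := by positivity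
  set CC : ℝ := 2 * (am * (C1 + k1 * Real.log ρ)) + nn * (wm * Real.log ρ) + δ0 with hCC
  have hCC1 : 0 ≤ am * (C1 + k1 * Real.log ρ) := by positivity
  have hCC2 : 0 ≤ nn * (wm * Real.log ρ) := by positivity
  have hCC0 : 0 ≤ CC := by positivity
  refine ⟨Ψ 0, CC, hΨ0, hCC0, fun Dm qq hqq => ?_⟩
  -- the parameters
  set s : Fin (n + 1) → (Fin Dm → ℝ) → ℂ := fun j => sf k1 ρ (qq j) with hs
  have hsg : ∀ k, Good (s k) := fun k => good_sf hρ
  have hsn : ∀ k θ, ‖s k θ‖ = (ρ⁻¹) ^ k1 := fun k θ => norm_sf hρ θ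
  have hslw : ∀ k j θ, ‖lw (s k) j θ‖ ≤ 2 * Real.pi * k1 := fun k j θ => lw_sf_le hρ j θ
  have hsper : ∀ k θ j, s k (θ + Pi.single j 1) = s k θ := fun k θ j => sf_add_single θ j
  have hslw' : ∀ k j θ, lw (s k) j θ = 2 * Real.pi * Complex.I *
      (if j = qq k then -(k1 : ℂ) else 0) := by
    intro k j θ
    have e : s k = fun θ => circ ρ (θ (qq k)) ^ (-(k1 : ℤ)) := by
      funext θ
      simp only [hs]
      unfold sf
      rw [zpow_neg, zpow_natCast, inv_pow]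
    rw [e, lw_zpow (good_circ hρ (qq k)), lw_circ hρ]
    split_ifs
    · push_cast
      ring
    · ring
  set sv : (Fin Dm → ℝ) → Fin (n + 1) → ℂ := fun θ j => s j θ with hsv
  have hρk : 0 ≤ (ρ⁻¹) ^ k1 := by positivity
  have hsvc : ContDiff ℝ 2 sv := contDiff_pi.2 fun j => (hsg j).smooth
  have hsvn : ∀ θ, ‖sv θ‖ ≤ (ρ⁻¹) ^ k1 := fun θ =>
    (pi_norm_le_iff_of_nonneg hρk).2 fun j => (hsn j θ).le
  have hsvd : ∀ j θ, ‖fderiv ℝ sv θ (Pi.single j 1)‖ ≤ (ρ⁻¹) ^ k1 * (2 * Real.pi * k1) := by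
    intro j θ
    have h1 : HasFDerivAt sv (ContinuousLinearMap.pi fun i => fderiv ℝ (s i) θ) θ :=
      hasFDerivAt_pi.2 fun i => (((hsg i).smooth.differentiable (by norm_num)) θ).hasFDerivAt
    rw [h1.fderiv]
    refine (pi_norm_le_iff_of_nonneg (by positivity)).2 fun i => ?_
    have h2 : (ContinuousLinearMap.pi fun i => fderiv ℝ (s i) θ) (Pi.single j 1) i =
        s i θ * lw (s i) j θ := by
      show fderiv ℝ (s i) θ (Pi.single j 1) = _
      unfold lw
      rw [mul_div_cancel₀ _ ((hsg i).ne_zero θ)]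
    rw [h2, norm_mul]
    exact mul_le_mul (hsn i θ).le (hslw i j θ) (norm_nonneg _) hρk
  have hballs : ∀ θ, dist (sv θ) 0 < rB := by
    intro θ
    rw [dist_zero_right]
    exact (hsvn θ).trans_lt hinvB
  -- the points
  set P : (Fin Dm → ℝ) → Fin (n + 1) → ℂ := fun θ => φ (sv θ) with hP
  have hPc : ContDiff ℝ 2 P := by
    rw [contDiff_iff_contDiffAt]
    intro θ
    exact (((hball (hballs θ)).1).restrict_scalars ℝ).comp θ hsvc.contDiffAt
  have hsvper : ∀ θ j, sv (θ + Pi.single j 1) = sv θ := by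
    intro θ j
    funext i
    exact hsper i θ j
  have hPper : ∀ θ j, P (θ + Pi.single j 1) = P θ := by
    intro θ j
    simp only [hP, hsvper]
  -- the functions `L_y`
  have hval : ∀ θ (y : Σ k, Fin (D.r k + 1)), MvPolynomial.eval₂ σ (P θ) (D.L y.1 y.2) =
      (∏ j, if y = nd t j then s j θ else 1) * A y (sv θ) := by
    intro θ y
    by_cases hy : ∃ j, y = nd t j
    · obtain ⟨j, rfl⟩ := hy
      rw [Finset.prod_eq_single j]
      · rw [if_pos rfl]
        exact (hball (hballs θ)).2.1 j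
      · intro i _ hi
        rw [if_neg fun h => hi (nd_injective t h).symm]
      · intro h
        exact absurd (Finset.mem_univ _) h
    · push Not at hy
      rw [Finset.prod_eq_one fun j _ => if_neg (hy j), one_mul]
      exact (hball (hballs θ)).2.2 y hy
  have hgA : ∀ y : (Σ k, Fin (D.r k + 1)), Good (fun θ => A y (sv θ)) ∧
      (∀ θ, |Real.log ‖A y (sv θ)‖| ≤ C1) ∧ ∀ i θ, ‖lw (fun θ => A y (sv θ)) i θ‖ ≤ δ0 := by
    intro y
    obtain ⟨a1, a2, a3⟩ := hcomp y ((ρ⁻¹) ^ k1) (hinvA.trans (hρAle y)) Dm sv hsvc hsvn hsvd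
    exact ⟨a1, fun θ => (a2 θ).trans (hC1 y), a3⟩
  have hgI : ∀ (y : Σ k, Fin (D.r k + 1)) j,
      Good (fun θ => if y = nd t j then s j θ else 1) := by
    intro y j
    by_cases h : y = nd t j
    · simp only [if_pos h]
      exact hsg j
    · simp only [if_neg h]
      exact good_const one_ne_zero
  have hg : ∀ (y : Σ k, Fin (D.r k + 1)),
      Good (fun θ => MvPolynomial.eval₂ σ (P θ) (D.L y.1 y.2)) ∧
      (∀ θ, |Real.log ‖MvPolynomial.eval₂ σ (P θ) (D.L y.1 y.2)‖| ≤ C1 + k1 * Real.log ρ) ∧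
      ∀ i θ, ‖lw (fun θ => MvPolynomial.eval₂ σ (P θ) (D.L y.1 y.2)) i θ -
        ∑ j, (if y = nd t j then (1 : ℂ) else 0) * lw (s j) i θ‖ ≤ δ0 := by
    intro y
    obtain ⟨a1, a2, a3⟩ := hgA y
    have hfun : (fun θ => MvPolynomial.eval₂ σ (P θ) (D.L y.1 y.2)) = fun θ =>
        (∏ j, if y = nd t j then s j θ else 1) * A y (sv θ) := by
      funext θ
      exact hval θ y
    have hprod : Good (fun θ => ∏ j, if y = nd t j then s j θ else 1) :=
      good_prod Finset.univ fun j => hgI y j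
    rw [hfun]
    refine ⟨hprod.mul a1, fun θ => ?_, fun i θ => ?_⟩
    · rw [hval θ y, norm_mul, Real.log_mul (norm_ne_zero_iff.2 (hprod.ne_zero θ))
        (norm_ne_zero_iff.2 (a1.ne_zero θ))]
      have h1 : |Real.log ‖∏ j, if y = nd t j then s j θ else 1‖| ≤ k1 * Real.log ρ := by
        by_cases hy : ∃ j, y = nd t j
        · obtain ⟨j, rfl⟩ := hy
          rw [Finset.prod_eq_single j]
          · rw [if_pos rfl, hsn, Real.log_pow, Real.log_inv, abs_mul, abs_neg,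
              abs_of_nonneg hlogρ, Nat.abs_cast]
          · intro i _ hi
            rw [if_neg fun h => hi (nd_injective t h).symm]
          · intro h
            exact absurd (Finset.mem_univ _) h
        · push Not at hy
          rw [Finset.prod_eq_one fun j _ => if_neg (hy j), norm_one, Real.log_one, abs_zero]
          positivity
      refine (abs_add_le _ _).trans ?_
      have := a2 θ
      linarith
    · rw [lw_mul hprod a1, lw_prod Finset.univ (fun j => hgI y j)]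
      have h1 : ∀ j, lw (fun θ => if y = nd t j then s j θ else 1) i θ =
          (if y = nd t j then (1 : ℂ) else 0) * lw (s j) i θ := by
        intro j
        by_cases h : y = nd t j
        · simp only [if_pos h, one_mul]
        · simp only [if_neg h, zero_mul]
          exact lw_const _ i θ
      rw [Finset.sum_congr rfl fun j _ => h1 j, add_sub_cancel_left]
      exact a3 i θ
  have hBPt : ∀ θ, BPt σ D (P θ) := fun θ y => (hg y).1.ne_zero θ
  -- the root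
  obtain ⟨g0, hg0g, hg0dep, hg0log, hg0lw, hg0eq⟩ := hroot Dm (fun θ => Ψ (sv θ) / Ψ 0 - 1)
    (hsm _ hinvC Dm sv hsvc hsvn hsvd).1 (hsm _ hinvC Dm sv hsvc hsvn hsvd).2.1
    (hsm _ hinvC Dm sv hsvc hsvn hsvd).2.2
  set cz : Fin (n + 1) → (Fin Dm → ℝ) → ℂ := fun j θ =>
    circ ρ (θ (qq j)) ^ (-((w (nd t j) + 1 : ℕ) : ℤ)) with hcz
  have hczg : ∀ j, Good (cz j) := fun j => good_zpow (good_circ hρ (qq j)) _
  have hpg : Good (fun θ => ∏ j ∈ Finset.univ, cz j θ) := good_prod Finset.univ fun j => hczg j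
  have hczlog : ∀ j θ, |Real.log ‖cz j θ‖| ≤ wm * Real.log ρ := by
    intro j θ
    simp only [hcz]
    rw [norm_zpow, norm_circ hρ.le, Real.log_zpow, abs_mul, abs_of_nonneg hlogρ]
    refine mul_le_mul_of_nonneg_right ?_ hlogρ
    have h1 : |((-((w (nd t j) + 1 : ℕ) : ℤ) : ℤ) : ℝ)| = (w (nd t j) : ℝ) + 1 := by
      push_cast
      rw [abs_of_nonpos (by
        have : (0 : ℝ) ≤ w (nd t j) := Nat.cast_nonneg' _
        linarith)]
      ring
    rw [h1]
    exact hwm (nd t j)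
  have hczlw : ∀ k j θ, lw (cz k) j θ = 2 * Real.pi * Complex.I *
      (if j = qq k then ((-((w (nd t k) : ℝ) + 1) : ℝ) : ℂ) else 0) := by
    intro k j θ
    simp only [hcz]
    rw [lw_zpow (good_circ hρ (qq k)), lw_circ hρ]
    split_ifs
    · push_cast
      ring
    · ring
  refine ⟨fun θ => (hBPt θ).ev, fun θ => (∏ j ∈ Finset.univ, cz j θ) * g0 θ,
    fun θ => (hBPt θ).ev_cst, contDiff_bpt hPc hBPt, fun θ j => BPt.congr _ _ (hPper θ j),
    hpg.mul hg0g, ?_, ?_, ?_, ?_, ?_, ?_⟩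
  · intro θ j
    have h1 : g0 (θ + Pi.single j 1) = g0 θ := hg0dep _ _ (by simp only [hsvper])
    have h2 : ∀ k, cz k (θ + Pi.single j 1) = cz k θ := by
      intro k
      have h3 : circ ρ ((θ + Pi.single j 1 : Fin Dm → ℝ) (qq k)) =
        circ ρ (θ (qq k)) := per_circ ρ (qq k) θ j
      simp only [hcz]
      rw [h3]
    simp only [h1, h2]
  · intro θ
    rw [(hBPt θ).ev_Phi0]
    have e1 : ∏ y : (Σ k, Fin (D.r k + 1)),
        MvPolynomial.eval₂ σ (P θ) (D.L y.1 y.2) ^ (w y + 1) =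
        (∏ j, s j θ ^ (w (nd t j) + 1)) * ∏ y, A y (sv θ) ^ (w y + 1) := by
      rw [Finset.prod_congr rfl fun y _ => by rw [hval θ y, mul_pow], Finset.prod_mul_distrib]
      congr 1
      rw [Finset.prod_congr rfl fun y _ => (Finset.prod_pow Finset.univ (w y + 1)
        (fun j => if y = nd t j then s j θ else 1)).symm, Finset.prod_comm]
      refine Finset.prod_congr rfl fun j _ => ?_
      rw [Finset.prod_eq_single (nd t j)]
      · rw [if_pos rfl]
      · intro y _ hy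
        rw [if_neg hy, one_pow]
      · intro h
        exact absurd (Finset.mem_univ _) h
    have e2 : (∏ j, cz j θ) ^ k1 = ∏ j, s j θ ^ (w (nd t j) + 1) := by
      rw [← Finset.prod_pow]
      refine Finset.prod_congr rfl fun j _ => ?_
      simp only [hcz, hs]
      unfold sf
      rw [zpow_neg, zpow_natCast, inv_pow, inv_pow, inv_pow, ← pow_mul, ← pow_mul,
        mul_comm k1]
    rw [e1, mul_pow, e2, hg0eq]
    have e3 : MvPolynomial.eval₂ σ (P θ) g * ∏ y, A y (sv θ) ^ (w y + 1) = Ψ (sv θ) := rfl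
    have e4 : Ψ 0 * (1 + (Ψ (sv θ) / Ψ 0 - 1)) = Ψ (sv θ) := by
      field_simp
      ring
    calc MvPolynomial.eval₂ σ (P θ) g * ((∏ j, s j θ ^ (w (nd t j) + 1)) *
          ∏ y, A y (sv θ) ^ (w y + 1)) = (∏ j, s j θ ^ (w (nd t j) + 1)) *
          (MvPolynomial.eval₂ σ (P θ) g * ∏ y, A y (sv θ) ^ (w y + 1)) := by ring
      _ = (∏ j, s j θ ^ (w (nd t j) + 1)) * (Ψ 0 * (1 + (Ψ (sv θ) / Ψ 0 - 1))) := by
        rw [e3, e4]
      _ = _ := by ring
  · intro θ
    rw [norm_mul, norm_prod, Real.log_mul (Finset.prod_ne_zero_iff.2 fun j _ =>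
      norm_ne_zero_iff.2 ((hczg j).ne_zero θ)) (norm_ne_zero_iff.2 (hg0g.ne_zero θ)),
      Real.log_prod fun j _ => norm_ne_zero_iff.2 ((hczg j).ne_zero θ)]
    refine (abs_add_le _ _).trans ?_
    have h1 : |∑ j, Real.log ‖cz j θ‖| ≤ nn * (wm * Real.log ρ) := by
      refine (Finset.abs_sum_le_sum_abs _ _).trans ((Finset.sum_le_sum fun j _ =>
        hczlog j θ).trans (le_of_eq ?_))
      rw [Finset.sum_const, Finset.card_univ, Fintype.card_fin, nsmul_eq_mul, hnn]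
      push_cast
      ring
    have h2 := hg0log θ
    linarith
  · intro j θ
    have h1 := lw_mul hpg hg0g j θ
    rw [lw_prod Finset.univ (fun k => hczg k)] at h1
    rw [h1, Finset.mul_sum, Finset.sum_congr rfl fun k _ => hczlw k j θ, add_sub_cancel_left]
    exact (hg0lw j θ).trans hδ0le'
  · intro y θ
    rw [(hBPt θ).ev_u]
    obtain ⟨g1, l1, -⟩ := hg ⟨y.1, y.2.succ⟩
    obtain ⟨g2, l2, -⟩ := hg ⟨y.1, 0⟩
    have l1' := l1 θ
    have l2' := l2 θ
    rw [norm_mul, norm_inv, norm_pow, norm_pow,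
      Real.log_mul (pow_ne_zero _ (norm_ne_zero_iff.2 (g1.ne_zero θ)))
        (inv_ne_zero (pow_ne_zero _ (norm_ne_zero_iff.2 (g2.ne_zero θ)))), Real.log_inv,
      Real.log_pow, Real.log_pow, ← sub_eq_add_neg]
    refine (abs_sub _ _).trans ?_
    rw [abs_mul, abs_mul, Nat.abs_cast, Nat.abs_cast]
    have b1 := mul_le_mul (ham' y.1 0) l1' (abs_nonneg _) ham0
    have b2 := mul_le_mul (ham' y.1 y.2.succ) l2' (abs_nonneg _) ham0
    linarith
  · intro y i θ
    obtain ⟨g1, -, l1⟩ := hg ⟨y.1, y.2.succ⟩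
    obtain ⟨g2, -, l2⟩ := hg ⟨y.1, 0⟩
    have l1' := l1 i θ
    have l2' := l2 i θ
    have hpm0' : ∀ j, (if (⟨y.1, 0⟩ : Σ k, Fin (D.r k + 1)) = nd t j then (1 : ℂ) else 0)
      = 0 := fun j => if_neg (nd_ne_zero t j y.1)
    simp only [hpm0', zero_mul, Finset.sum_const_zero, sub_zero] at l2'
    have hfn : (fun θ => (hBPt θ).ev (D.bu y : D.BRing)) = fun θ =>
        MvPolynomial.eval₂ σ (P θ) (D.L y.1 y.2.succ) ^ D.a y.1 0 *
        (MvPolynomial.eval₂ σ (P θ) (D.L y.1 0) ^ D.a y.1 y.2.succ)⁻¹ := by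
      funext θ
      exact (hBPt θ).ev_u y
    rw [hfn, lw_mul (good_pow g1 _) (good_inv (good_pow g2 _)), lw_inv (good_pow g2 _), lw_pow g1,
      lw_pow g2]
    set a := lw (fun θ => MvPolynomial.eval₂ σ (P θ) (D.L y.1 y.2.succ)) i θ with ha
    set b := lw (fun θ => MvPolynomial.eval₂ σ (P θ) (D.L y.1 0)) i θ with hb
    have hterm : ∀ j, 2 * Real.pi * Complex.I *
        (if i = qq j then ((-((k1 : ℝ) * pm t y j) : ℝ) : ℂ) else 0) = (D.a y.1 0 : ℂ) *
        ((if (⟨y.1, y.2.succ⟩ : Σ k, Fin (D.r k + 1)) = nd t j then (1 : ℂ) else 0) *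
          lw (s j) i θ) := by
      intro j
      rw [hslw', pm_eq]
      by_cases h1 : i = qq j
      · rw [if_pos h1, if_pos h1]
        by_cases h2 : (⟨y.1, y.2.succ⟩ : Σ k, Fin (D.r k + 1)) = nd t j
        · rw [if_pos h2, if_pos h2]
          push_cast
          ring
        · rw [if_neg h2, if_neg h2]
          push_cast
          ring
      · rw [if_neg h1, if_neg h1]
        ring
    have e1 : (D.a y.1 0 : ℂ) * a + -((D.a y.1 y.2.succ : ℂ) * b) -
        2 * Real.pi * Complex.I * ∑ j, (if i = qq j then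
          ((-((k1 : ℝ) * pm t y j) : ℝ) : ℂ) else 0) =
        (D.a y.1 0 : ℂ) * (a -
          ∑ j, (if (⟨y.1, y.2.succ⟩ : Σ k, Fin (D.r k + 1)) = nd t j then (1 : ℂ) else 0) *
            lw (s j) i θ) - (D.a y.1 y.2.succ : ℂ) * b := by
      rw [Finset.mul_sum, Finset.sum_congr rfl fun j _ => hterm j, ← Finset.mul_sum]
      ring
    rw [e1]
    refine (norm_sub_le _ _).trans ?_
    rw [norm_mul, norm_mul, Complex.norm_natCast, Complex.norm_natCast]
    have b1 := mul_le_mul (ham' y.1 0) l1' (norm_nonneg _) ham0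
    have b2 := mul_le_mul (ham' y.1 y.2.succ) l2' (norm_nonneg _) ham0
    linarith

end Pool.Agent.Run7.h954.MX
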