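import Pool.Agent.Run7.h954.FP.GReg
set_option autoImplicit false

/-!
Tori on the fibrations `W(z) = λ Φ` over a base with small tori at the nodes of `Φ`, and the
regulators.
-/

namespace Pool.Agent.Run7.h954.MX

open Filter Topology

open Pool.Agent.TH826.MK (KQ symb Torus Good Per lw circ lw_mul lw_prod lw_const good_const
  norm_circ pairing good_prod)

open Pool.Agent.TH826.SX (pairing_close good_circ lw_circ circ_ne_zero)

open Pool.Agent.N65.TL

open Pool.Agent.N65.TE (castAdd_ne_natAdd)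

open Pool.Agent.Run7.h954.FP

section sym

variable {K : Type*} [Field K] {B : Type*} [CommRing B] [Algebra K B] {s d : ℕ}

/-- The units of the base. -/
noncomputable def gu (W : LP K (s + 1)) (Φ : B) : Bˣ →* (GRing W Φ)ˣ :=
  Units.map (gb W Φ : B →* GRing W Φ)

/-- The symbol `{z_0, ..., z_s, u_0, ..., u_d}`. -/
noncomputable def gsym (W : LP K (s + 1)) (Φ : B) (u : Fin (d + 1) → Bˣ) :
    KQ (GRing W Φ) (s + (d + 1) + 1) :=
  symb fun l => Sum.elim (gz W Φ)
    (fun k => Units.map (gb W Φ : B →* GRing W Φ) (u k)) ((esum s d).symm l)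

end sym

section mat

variable {s d : ℕ}

/-- the matrix of the orders of the entries -/
noncomputable def RQ (al v : Fin (s + 1) → ℤ) (i0 : Fin (s + 1)) (c : Fin (d + 1) → ℝ)
    (M : Matrix (Fin (d + 1)) (Fin (d + 1)) ℝ) :
    Matrix (Fin (s + (d + 1) + 1)) (Fin (s + (d + 1) + 1)) ℝ :=
  (Matrix.fromBlocks (zmat al v i0) (Matrix.of fun i k => (al i : ℝ) * c k) 0
    M).submatrix (esum s d).symm (esum s d).symm

variable {al v : Fin (s + 1) → ℤ} {i0 : Fin (s + 1)} {c : Fin (d + 1) → ℝ}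
  {M : Matrix (Fin (d + 1)) (Fin (d + 1)) ℝ}

theorem det_RQ : (RQ al v i0 c M).det = (zmat al v i0).det * M.det := by
  unfold RQ
  rw [Matrix.det_submatrix_equiv_self, Matrix.det_fromBlocks_zero₂₁]

theorem RQ_z_zero (i : Fin (s + 1)) :
    RQ al v i0 c M (esum s d (Sum.inl i)) 0 = (al i : ℝ) / dot al v := by
  unfold RQ
  rw [Matrix.submatrix_apply, Equiv.symm_apply_apply, ← esum_zero (s := s) (d := d),
    Equiv.symm_apply_apply, Matrix.fromBlocks_apply₁₁]
  rfl

theorem RQ_u_zero (k : Fin (d + 1)) : RQ al v i0 c M (esum s d (Sum.inr k)) 0 = 0 := by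
  unfold RQ
  rw [Matrix.submatrix_apply, Equiv.symm_apply_apply, ← esum_zero (s := s) (d := d),
    Equiv.symm_apply_apply, Matrix.fromBlocks_apply₂₁]
  rfl

theorem RQ_z_succ (i : Fin (s + 1)) (j : Fin (s + (d + 1))) :
    RQ al v i0 c M (esum s d (Sum.inl i)) j.succ =
      al i * (∑ k, if j = Fin.natAdd s k then c k else 0) +
        ∑ l, if j = Fin.castAdd (d + 1) l then (bdir v i0 l i : ℝ) else 0 := by
  unfold RQ
  rw [Matrix.submatrix_apply, Equiv.symm_apply_apply]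
  refine Fin.addCases (fun l => ?_) (fun k => ?_) j
  · rw [← esum_castAdd, Equiv.symm_apply_apply, Matrix.fromBlocks_apply₁₁,
      Finset.sum_eq_zero (s := Finset.univ) (f := fun k => if Fin.castAdd (d + 1) l =
        Fin.natAdd s k then c k else 0) (fun k _ => if_neg (castAdd_ne_natAdd l k)), mul_zero,
      zero_add, Finset.sum_eq_single l]
    · rw [if_pos rfl]
      rfl
    · intro l' _ hl'
      rw [if_neg fun h => hl' (Fin.castAdd_injective _ _ h).symm]
    · intro h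
      exact absurd (Finset.mem_univ _) h
  · rw [← esum_natAdd, Equiv.symm_apply_apply, Matrix.fromBlocks_apply₁₂,
      Finset.sum_eq_zero (s := Finset.univ) (f := fun l => if Fin.natAdd s k =
        Fin.castAdd (d + 1) l then (bdir v i0 l i : ℝ) else 0)
        (fun l _ => if_neg (fun h => castAdd_ne_natAdd l k h.symm)), add_zero,
      Finset.sum_eq_single k]
    · rw [if_pos rfl]
      rfl
    · intro k' _ hk'
      rw [if_neg fun h => hk' (Fin.natAdd_injective _ _ h).symm]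
    · intro h
      exact absurd (Finset.mem_univ _) h

theorem RQ_u_succ (k : Fin (d + 1)) (j : Fin (s + (d + 1))) :
    RQ al v i0 c M (esum s d (Sum.inr k)) j.succ =
      ∑ l, if j = Fin.natAdd s l then M k l else 0 := by
  unfold RQ
  rw [Matrix.submatrix_apply, Equiv.symm_apply_apply]
  refine Fin.addCases (fun l => ?_) (fun k' => ?_) j
  · rw [← esum_castAdd, Equiv.symm_apply_apply, Matrix.fromBlocks_apply₂₁,
      Finset.sum_eq_zero (s := Finset.univ) (f := fun k' => if Fin.castAdd (d + 1) l =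
        Fin.natAdd s k' then M k k' else 0) (fun k' _ => if_neg (castAdd_ne_natAdd l k'))]
    rfl
  · rw [← esum_natAdd, Equiv.symm_apply_apply, Matrix.fromBlocks_apply₂₂,
      Finset.sum_eq_single k']
    · rw [if_pos rfl]
    · intro l _ hl
      rw [if_neg fun h => hl (Fin.natAdd_injective _ _ h).symm]
    · intro h
      exact absurd (Finset.mem_univ _) h

end mat

/-- Small tori in the base near a node: `Φ` is `κ Λ ^ k1`, and the logarithmic derivatives of `Λ`
and of the units are close to `2 π i c` and `2 π i M`. -/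
def BaseTorus {K : Type*} [Field K] {B : Type*} [CommRing B] [Algebra K B] (σ : K →+* ℂ) (Φ : B)
    (k1 : ℕ) {m : ℕ} {υ : Type*} (u : υ → Bˣ) (c : Fin m → ℝ) (M : υ → Fin m → ℝ) : Prop :=
  ∀ δ : ℝ, 0 < δ → ∃ (κ : ℂ) (C : ℝ), κ ≠ 0 ∧ 0 ≤ C ∧
    ∀ (D : ℕ) (q : Fin m → Fin D), Function.Injective q →
      ∃ (E : (Fin D → ℝ) → B →+* ℂ) (Λ : (Fin D → ℝ) → ℂ),
        (∀ θ, (E θ).comp (algebraMap K B) = σ) ∧ (∀ b, ContDiff ℝ 2 fun θ => E θ b) ∧
        (∀ θ j, E (θ + Pi.single j 1) = E θ) ∧ Good Λ ∧ Per Λ ∧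
        (∀ θ, E θ Φ = κ * Λ θ ^ k1) ∧ (∀ θ, |Real.log ‖Λ θ‖| ≤ C) ∧
        (∀ j θ, ‖lw Λ j θ - 2 * Real.pi * Complex.I *
          ∑ l, (if j = q l then (c l : ℂ) else 0)‖ ≤ δ) ∧
        (∀ y θ, |Real.log ‖E θ (u y : B)‖| ≤ C) ∧
        ∀ y j θ, ‖lw (fun θ => E θ (u y : B)) j θ - 2 * Real.pi * Complex.I *
          ∑ l, (if j = q l then (M y l : ℂ) else 0)‖ ≤ δ

/-- The regulators of the symbols on the fibrations `W(z) = λ Φ`. -/
theorem exists_qtori {K : Type*} [Field K] {B : Type*} [CommRing B] [Algebra K B] {s d : ℕ}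
    {ι υ : Type*} [Fintype ι] (σ : K →+* ℂ) {W : LP K (s + 1)}
    {al v : Fin (s + 1) → ℤ} (hv : W.coeff v ≠ 0) (hpos : 0 < dot al v)
    (hmax : ∀ m, W.coeff m ≠ 0 → m ≠ v → dot al m < dot al v) (i0 : Fin (s + 1)) (Φ : B)
    (u : υ → Bˣ) (y : ι → Fin (d + 1) → υ) (c : ι → Fin (d + 1) → ℝ)
    (M : ι → υ → Fin (d + 1) → ℝ)
    (hb : ∀ t, BaseTorus σ Φ (dot al v).toNat u (c t) (M t)) {ε : ℝ} (hε : 0 < ε) :
    ∃ C : ℝ, ∀ lam : K, C ≤ ‖σ lam‖ →
      ∃ Γ : ι → Torus (GRing W (algebraMap K B lam * Φ)) (s + (d + 1)),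
        (∀ t θ (x : K), (Γ t).e θ (gcst W (algebraMap K B lam * Φ) x) = σ x) ∧
        ∀ t t', |(Γ t).reg (gsym W (algebraMap K B lam * Φ) fun k => u (y t' k)) /
          Real.log ‖σ lam‖ - (2 * Real.pi) ^ (s + (d + 1)) * ((zmat al v i0).det *
            (Matrix.of fun k l => M t (y t' k) l).det)| ≤ ε := by
  classical
  have hpi := Real.pi_pos
  have hnpi : ‖(2 * Real.pi * Complex.I : ℂ)‖ = 2 * Real.pi := by
    rw [norm_mul, norm_mul, Complex.norm_I, Complex.norm_real, Complex.norm_ofNat, mul_one,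
      Real.norm_eq_abs, abs_of_pos Real.pi_pos]
  set k1 : ℕ := (dot al v).toNat with hk1
  have hk1z : (k1 : ℤ) = dot al v := Int.toNat_of_nonneg hpos.le
  have hk10 : 0 < k1 := by omega
  have hk1R : (1 : ℝ) ≤ k1 := by exact_mod_cast hk10
  have hk1zR : ((dot al v : ℤ) : ℝ) = k1 := by
    rw [← hk1z]
    simp
  have hσv : σ (W.coeff v) ≠ 0 := (map_ne_zero σ).2 hv
  have hite : ∀ (P : Prop) [Decidable P] (x : ℝ),
      ((if P then x else 0 : ℝ) : ℂ) = if P then (x : ℂ) else 0 := by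
    intro P _ x
    split_ifs <;> simp
  set MM : ι → ι → Matrix (Fin (d + 1)) (Fin (d + 1)) ℝ := fun t t' =>
    Matrix.of fun k l => M t (y t' k) l with hMM
  choose δ hδ hclose using fun q : ι × ι =>
    pairing_close (RQ al v i0 (c q.1) (MM q.1 q.2)) hε
  obtain ⟨δ1, hδ1, hδ1le⟩ := exists_pos_le hδ
  set Aa : ℝ := 1 + ∑ i, |(al i : ℝ)| with hAa
  have hsa : 0 ≤ ∑ i, |(al i : ℝ)| := Finset.sum_nonneg fun i _ => abs_nonneg _
  have hAa1 : 1 ≤ Aa := by linarith
  have hAi : ∀ i, |(al i : ℝ)| ≤ Aa := by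
    intro i
    have h2 : |(al i : ℝ)| ≤ ∑ i, |(al i : ℝ)| :=
      Finset.single_le_sum (f := fun i => |(al i : ℝ)|) (fun i _ => abs_nonneg _)
        (Finset.mem_univ i)
    linarith
  set δ0 : ℝ := δ1 / (4 * Aa) with hδ0
  have hδ0pos : 0 < δ0 := by positivity
  have hδ0eq : δ0 * (4 * Aa) = δ1 := by
    rw [hδ0]
    field_simp
  have hδ0le : δ0 < δ1 := by nlinarith
  have hδ0le' : δ0 + Aa * δ0 < δ1 := by nlinarith
  -- the tori in the base
  choose κ0 C0 hκ00 hC00 hbase using fun t => hb t δ0 hδ0pos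
  obtain ⟨C1, hC10, hC1⟩ := exists_ge C0
  obtain ⟨CK, hCK0, hCK⟩ := exists_ge fun t => |Real.log ‖κ0 t‖|
  obtain ⟨cm, hcm0, hcm⟩ := exists_ge fun t => ∑ l, |c t l|
  set B1 : ℝ := 2 * Real.pi * cm + δ0 with hB1
  have hB10 : 0 ≤ B1 := by positivity
  obtain ⟨R1, hR1, hz1⟩ := exists_z σ hv hpos hmax i0 hB10 hδ0pos
  set jk : Fin (d + 1) → Fin (s + (d + 1)) := Fin.natAdd s with hjk
  have hjkinj : Function.Injective jk := fun _ _ h => Fin.natAdd_injective _ _ h
  set C2 : ℝ := CK + |Real.log ‖σ (W.coeff v)‖| + C1 with hC2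
  have hC20 : 0 ≤ C2 := by positivity
  have hlogR1 : 0 ≤ Real.log R1 := Real.log_nonneg hR1
  set Mb : ℝ := k1 * (Real.log R1 + C2) + (Aa * C2 + δ0) / δ0 + C1 / δ1 with hMb
  have hM1 : 0 ≤ k1 * (Real.log R1 + C2) := by positivity
  have hM2 : 0 ≤ (Aa * C2 + δ0) / δ0 := by positivity
  have hM3 : 0 ≤ C1 / δ1 := by positivity
  refine ⟨Real.exp (Mb + 1), fun lam hlam => ?_⟩
  have hln : 0 < ‖σ lam‖ := (Real.exp_pos _).trans_le hlam
  have hlam0 : σ lam ≠ 0 := norm_pos_iff.1 hln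
  set τ : ℝ := Real.log ‖σ lam‖ with hτ
  have hτM : Mb + 1 ≤ τ := by
    rw [hτ, Real.le_log_iff_exp_le hln]
    exact hlam
  have hτpos : 0 < τ := by linarith
  have hτ0 : τ ≠ 0 := hτpos.ne'
  choose E Λ0 hEσ hEc hEper hΛ0g hΛ0p hΛ0eq hΛ0log hΛ0lw hulog hulw using fun t =>
    hbase t (s + (d + 1)) jk hjkinj
  have hκex : ∀ t, ∃ κ : ℂ, κ ^ k1 = σ lam * κ0 t / σ (W.coeff v) := fun t =>
    IsAlgClosed.exists_pow_nat_eq _ hk10
  choose κ hκ using hκex
  have hκ0 : ∀ t, κ t ≠ 0 := by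
    intro t h0
    have h1 := hκ t
    rw [h0, zero_pow hk10.ne'] at h1
    exact (div_ne_zero (mul_ne_zero hlam0 (hκ00 t)) hσv) h1.symm
  set Λ : ι → (Fin (s + (d + 1)) → ℝ) → ℂ := fun t θ => κ t * Λ0 t θ with hΛ
  have hΛg : ∀ t, Good (Λ t) := fun t => (good_const (hκ0 t)).mul (hΛ0g t)
  have hΛp : ∀ t, Per (Λ t) := by
    intro t θ j
    simp only [hΛ, hΛ0p t θ j]
  have hΛlog : ∀ t θ, |Real.log ‖Λ t θ‖ - τ / k1| ≤ C2 := by
    intro t θ
    have h1 : Real.log ‖Λ t θ‖ = Real.log ‖κ t‖ + Real.log ‖Λ0 t θ‖ := by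
      simp only [hΛ]
      rw [norm_mul, Real.log_mul (norm_ne_zero_iff.2 (hκ0 t))
        (norm_ne_zero_iff.2 ((hΛ0g t).ne_zero θ))]
    have h2 : (k1 : ℝ) * Real.log ‖κ t‖ = τ + Real.log ‖κ0 t‖ -
        Real.log ‖σ (W.coeff v)‖ := by
      rw [← Real.log_pow, ← norm_pow, hκ, norm_div, norm_mul,
        Real.log_div (mul_ne_zero hln.ne' (norm_ne_zero_iff.2 (hκ00 t)))
          (norm_ne_zero_iff.2 hσv), Real.log_mul hln.ne' (norm_ne_zero_iff.2 (hκ00 t))]
    have h5 : Real.log ‖κ t‖ - τ / k1 = (Real.log ‖κ0 t‖ -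
        Real.log ‖σ (W.coeff v)‖) / k1 := by
      have hk : (k1 : ℝ) ≠ 0 := by linarith
      field_simp
      linarith
    have h6 : |Real.log ‖κ t‖ - τ / k1| ≤ CK + |Real.log ‖σ (W.coeff v)‖| := by
      rw [h5, abs_div, abs_of_pos (by linarith : (0 : ℝ) < k1)]
      exact (div_le_self (abs_nonneg _) hk1R).trans ((abs_sub _ _).trans
        (add_le_add (hCK t) le_rfl))
    rw [h1]
    have h7 : Real.log ‖κ t‖ + Real.log ‖Λ0 t θ‖ - τ / k1 =
        (Real.log ‖κ t‖ - τ / k1) + Real.log ‖Λ0 t θ‖ := by ring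
    rw [h7]
    exact (abs_add_le _ _).trans (add_le_add h6 ((hΛ0log t θ).trans (hC1 t)))
  have hΛR : ∀ t θ, R1 ≤ ‖Λ t θ‖ := by
    intro t θ
    have h1 := (abs_le.1 (hΛlog t θ)).1
    have h2 : Real.log R1 ≤ Real.log ‖Λ t θ‖ := by
      have h3 : Real.log R1 + C2 ≤ τ / k1 := by
        rw [le_div_iff₀ (by linarith)]
        linarith
      linarith
    exact (Real.log_le_log_iff (by linarith) (norm_pos_iff.2 ((hΛg t).ne_zero θ))).1 h2
  have hΛlw : ∀ t j θ, ‖lw (Λ t) j θ - 2 * Real.pi * Complex.I *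
      ∑ k, (if j = jk k then (c t k : ℂ) else 0)‖ ≤ δ0 := by
    intro t j θ
    have h1 : lw (Λ t) j θ = lw (Λ0 t) j θ := by
      have h2 := lw_mul (good_const (d := s + (d + 1)) (hκ0 t)) (hΛ0g t) j θ
      rwa [lw_const, zero_add] at h2
    rw [h1]
    exact hΛ0lw t j θ
  have hΛB : ∀ t j θ, ‖lw (Λ t) j θ‖ ≤ B1 := by
    intro t j θ
    have h1 := hΛlw t j θ
    have h2 : ‖2 * Real.pi * Complex.I * ∑ k, (if j = jk k then (c t k : ℂ) else 0)‖ ≤
        2 * Real.pi * cm := by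
      rw [norm_mul, hnpi]
      refine mul_le_mul_of_nonneg_left ?_ (by positivity)
      refine (norm_sum_le _ _).trans ((Finset.sum_le_sum (g := fun k => |c t k|)
        fun k _ => ?_).trans (hcm t))
      split_ifs
      · rw [Complex.norm_real, Real.norm_eq_abs]
      · rw [norm_zero]
        exact abs_nonneg _
    have h3 := norm_sub_norm_le (lw (Λ t) j θ)
      (2 * Real.pi * Complex.I * ∑ k, (if j = jk k then (c t k : ℂ) else 0))
    rw [hB1]
    linarith
  have hΛk : ∀ t θ, σ (W.coeff v) * Λ t θ ^ k1 = E t θ (algebraMap K B lam * Φ) := by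
    intro t θ
    have h1 : E t θ (algebraMap K B lam) = σ lam := RingHom.congr_fun (hEσ t θ) lam
    rw [map_mul, h1, hΛ0eq]
    simp only [hΛ]
    rw [mul_pow, hκ]
    field_simp
  choose Z hZg hZp hZlog hZlw hZeq using fun t => hz1 (s + (d + 1)) (Fin.castAdd (d + 1)) (Λ t)
    (hΛg t) (hΛp t) (hΛR t) (hΛB t)
  have hPt : ∀ t θ, GPt σ W (algebraMap K B lam * Φ) (E t θ) (fun i => Z t i θ) := fun t θ =>
    { he := hEσ t θ
      nez := fun i => (hZg t i).ne_zero θ
      eqz := (hZeq t θ).trans (hΛk t θ) }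
  refine ⟨fun t => mkG (W := W) (Φ := algebraMap K B lam * Φ) (hEc t) (hZg t) (hPt t) (hEper t)
    (hZp t), fun t θ x => (hPt t θ).ev_cst x, fun t t' => ?_⟩
  rw [← det_RQ (c := c t)]
  set Γ : Torus (GRing W (algebraMap K B lam * Φ)) (s + (d + 1)) := mkG (W := W)
    (Φ := algebraMap K B lam * Φ) (hEc t) (hZg t) (hPt t) (hEper t) (hZp t) with hΓ
  set ent : Fin (s + (d + 1) + 1) → (GRing W (algebraMap K B lam * Φ))ˣ := fun l =>
    Sum.elim (gz W (algebraMap K B lam * Φ)) (fun k => Units.map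
      (gb W (algebraMap K B lam * Φ) : B →* GRing W (algebraMap K B lam * Φ)) (u (y t' k)))
      ((esum s d).symm l) with hent
  change |Γ.reg (symb ent) / τ - (2 * Real.pi) ^ (s + (d + 1)) *
    (RQ al v i0 (c t) (MM t t')).det| ≤ ε
  rw [Torus.reg_symb]
  have hzfn : ∀ i, Γ.fn (ent (esum s d (Sum.inl i)) : GRing W (algebraMap K B lam * Φ)) =
      Z t i := by
    intro i
    funext θ
    simp only [hent, Equiv.symm_apply_apply, Sum.elim_inl]
    exact (hPt t θ).ev_z i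
  have hfn : ∀ k, Γ.fn (ent (esum s d (Sum.inr k)) : GRing W (algebraMap K B lam * Φ)) =
      fun θ => E t θ (u (y t' k) : B) := by
    intro k
    funext θ
    simp only [hent, Equiv.symm_apply_apply, Sum.elim_inr]
    exact (hPt t θ).ev_b (u (y t' k) : B)
  refine hclose (t, t') _ _ hτ0 (fun l => Γ.good _) (fun l θ => ?_) (fun l j θ => ?_)
  · obtain ⟨r, rfl⟩ := (esum s d).surjective l
    rcases r with i | k
    · rw [RQ_z_zero, congrFun (hzfn i) θ, hk1zR]
      refine lt_of_lt_of_le ?_ (hδ1le (t, t'))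
      refine lt_of_le_of_lt ?_ hδ0le'
      have h1 := hZlog t i θ
      have h2 := hΛlog t θ
      have h3 : Real.log ‖Z t i θ‖ / τ - al i / k1 =
          ((Real.log ‖Z t i θ‖ - al i * Real.log ‖Λ t θ‖) +
            al i * (Real.log ‖Λ t θ‖ - τ / k1)) / τ := by
        field_simp
        ring
      rw [h3, abs_div, abs_of_pos hτpos, div_le_iff₀ hτpos]
      refine (abs_add_le _ _).trans ?_
      rw [abs_mul]
      have h4 : |(al i : ℝ)| * |Real.log ‖Λ t θ‖ - τ / k1| ≤ Aa * C2 :=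
        mul_le_mul (hAi i) h2 (abs_nonneg _) (by linarith)
      have h5 : (Aa * C2 + δ0) / δ0 ≤ τ := by linarith
      rw [div_le_iff₀ hδ0pos] at h5
      have h6 : τ * δ0 ≤ (δ0 + Aa * δ0) * τ := by
        have : 0 ≤ Aa * δ0 * τ := by positivity
        linarith
      linarith
    · rw [RQ_u_zero, sub_zero, abs_div, abs_of_pos hτpos, div_lt_iff₀ hτpos,
        congrFun (hfn k) θ]
      have h1 := (hulog t (y t' k) θ).trans (hC1 t)
      have h2 : C1 / δ1 < τ := by linarith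
      rw [div_lt_iff₀ hδ1] at h2
      have h3 : δ1 * τ ≤ δ (t, t') * τ := mul_le_mul_of_nonneg_right (hδ1le (t, t')) hτpos.le
      linarith
  · obtain ⟨r, rfl⟩ := (esum s d).surjective l
    rcases r with i | k
    · rw [RQ_z_succ, hzfn i]
      refine lt_of_lt_of_le ?_ (hδ1le (t, t'))
      refine lt_of_le_of_lt ?_ hδ0le'
      have h1 := hZlw t i j θ
      have h2 := hΛlw t j θ
      simp only [Complex.ofReal_add, Complex.ofReal_mul, Complex.ofReal_sum, hite,
        Complex.ofReal_intCast]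
      have e1 : lw (Z t i) j θ - 2 * Real.pi * Complex.I *
          (al i * (∑ k, if j = Fin.natAdd s k then (c t k : ℂ) else 0) +
            ∑ l, if j = Fin.castAdd (d + 1) l then (bdir v i0 l i : ℂ) else 0) =
          (lw (Z t i) j θ - (al i * lw (Λ t) j θ + 2 * Real.pi * Complex.I *
            ∑ l, if j = Fin.castAdd (d + 1) l then (bdir v i0 l i : ℂ) else 0)) +
          al i * (lw (Λ t) j θ - 2 * Real.pi * Complex.I *
            ∑ k, (if j = jk k then (c t k : ℂ) else 0)) := by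
        ring
      rw [e1]
      refine (norm_add_le _ _).trans ?_
      rw [norm_mul, Complex.norm_intCast]
      have h4 : |(al i : ℝ)| * ‖lw (Λ t) j θ - 2 * Real.pi * Complex.I *
          ∑ k, (if j = jk k then (c t k : ℂ) else 0)‖ ≤ Aa * δ0 :=
        mul_le_mul (hAi i) h2 (norm_nonneg _) (by linarith)
      linarith
    · rw [RQ_u_succ, hfn k, Complex.ofReal_sum]
      simp only [hite]
      refine lt_of_lt_of_le (lt_of_le_of_lt ?_ hδ0le) (hδ1le (t, t'))
      exact hulw t (y t' k) j θ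

end Pool.Agent.Run7.h954.MX
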