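import Pool.Agent.Run7.h954.MX.Unr
import Pool.Agent.Run7.h954.FP.Germ
set_option autoImplicit false

/-!
Local coordinates at transversal common zeros of polynomials.
-/

namespace Pool.Agent.Run7.h954.MX

open Filter Topology

open Pool.Agent.TH826.MK

open Pool.Agent.TH826.SX (exists_nice)

open Pool.Agent.N65.TL

section deriv

variable {K : Type*} [Field K] (σ : K →+* ℂ) {N : ℕ}

theorem contDiff_mv (P : MvPolynomial (Fin N) K) :
    ContDiff ℂ 2 fun x : Fin N → ℂ => MvPolynomial.eval₂ σ x P := by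
  simp only [MvPolynomial.eval₂_eq']
  exact ContDiff.sum fun d _ => contDiff_const.mul
    (contDiff_prod fun j _ => (contDiff_apply ℂ ℂ j).pow _)

theorem hasFDerivAt_mv (P : MvPolynomial (Fin N) K) (p : Fin N → ℂ) :
    HasFDerivAt (fun x : Fin N → ℂ => MvPolynomial.eval₂ σ x P)
      (∑ j, MvPolynomial.eval₂ σ p (MvPolynomial.pderiv j P) •
        (ContinuousLinearMap.proj j : (Fin N → ℂ) →L[ℂ] ℂ)) p := by
  classical
  induction P using MvPolynomial.induction_on with
  | C a =>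
    have e : (fun x : Fin N → ℂ => MvPolynomial.eval₂ σ x (MvPolynomial.C a)) = fun _ => σ a := by
      funext x
      rw [MvPolynomial.eval₂_C]
    rw [e]
    refine (hasFDerivAt_const (σ a) p).congr_fderiv ?_
    symm
    refine Finset.sum_eq_zero fun j _ => ?_
    rw [MvPolynomial.pderiv_C, MvPolynomial.eval₂_zero]
    ext u
    simp
  | add P Q hP hQ =>
    have e : (fun x : Fin N → ℂ => MvPolynomial.eval₂ σ x (P + Q)) =
        (fun x : Fin N → ℂ => MvPolynomial.eval₂ σ x P) +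
          fun x : Fin N → ℂ => MvPolynomial.eval₂ σ x Q := by
      funext x
      exact MvPolynomial.eval₂_add σ x
    rw [e]
    refine (hP.add hQ).congr_fderiv ?_
    rw [← Finset.sum_add_distrib]
    refine Finset.sum_congr rfl fun j _ => ?_
    rw [map_add, MvPolynomial.eval₂_add]
    exact (add_smul _ _ _).symm
  | mul_X P i hP =>
    have h1 : HasFDerivAt (fun x : Fin N → ℂ => x i)
        (ContinuousLinearMap.proj i : (Fin N → ℂ) →L[ℂ] ℂ) p := hasFDerivAt_apply i p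
    have h2 := hP.mul h1
    have e : (fun x : Fin N → ℂ => MvPolynomial.eval₂ σ x (P * MvPolynomial.X i)) =
        fun x : Fin N → ℂ => MvPolynomial.eval₂ σ x P * x i := by
      funext x
      rw [MvPolynomial.eval₂_mul, MvPolynomial.eval₂_X]
    rw [e]
    refine h2.congr_fderiv ?_
    refine ContinuousLinearMap.ext fun u => ?_
    simp only [add_apply, smul_apply, smul_eq_mul, ContinuousLinearMap.sum_apply,
      ContinuousLinearMap.proj_apply, Derivation.leibniz,
      MvPolynomial.eval₂_add, MvPolynomial.eval₂_mul, MvPolynomial.eval₂_X]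
    have h3 : ∀ j, MvPolynomial.eval₂ σ p
        (MvPolynomial.pderiv j (MvPolynomial.X i : MvPolynomial (Fin N) K)) =
        if j = i then 1 else 0 := by
      intro j
      by_cases h : j = i
      · subst h
        rw [MvPolynomial.pderiv_X_self, if_pos rfl, MvPolynomial.eval₂_one]
      · rw [MvPolynomial.pderiv_X_of_ne fun h' => h h'.symm, if_neg h, MvPolynomial.eval₂_zero]
    simp only [h3]
    rw [Finset.mul_sum]
    have h4 : ∀ j, (MvPolynomial.eval₂ σ p P * (if j = i then 1 else 0) +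
        p i * MvPolynomial.eval₂ σ p (MvPolynomial.pderiv j P)) * u j =
        (if j = i then MvPolynomial.eval₂ σ p P * u j else 0) +
          p i * (MvPolynomial.eval₂ σ p (MvPolynomial.pderiv j P) * u j) := by
      intro j
      split_ifs <;> ring
    simp only [h4]
    rw [Finset.sum_add_distrib, Finset.sum_ite_eq' Finset.univ i, if_pos (Finset.mem_univ _)]

end deriv

/-- The inverse function theorem. -/
theorem exists_inv {N : ℕ} {f : Fin N → (Fin N → ℂ) → ℂ} (hf : ∀ j, ContDiff ℂ 2 (f j))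
    {p : Fin N → ℂ} (h0 : ∀ j, f j p = 0) {J : Matrix (Fin N) (Fin N) ℂ}
    (hd : ∀ j, HasFDerivAt (f j) (∑ l, J j l •
      (ContinuousLinearMap.proj l : (Fin N → ℂ) →L[ℂ] ℂ)) p) (hJ : J.det ≠ 0) :
    ∃ φ : (Fin N → ℂ) → (Fin N → ℂ), ContDiffAt ℂ 2 φ 0 ∧ φ 0 = p ∧
      ∀ᶠ s in 𝓝 (0 : Fin N → ℂ), ∀ j, f j (φ s) = s j := by
  classical
  set Φ : (Fin N → ℂ) → (Fin N → ℂ) := fun u j => f j u with hΦ
  have hΦc : ContDiffAt ℂ 2 Φ p := (contDiff_pi.2 hf).contDiffAt
  have hΦ0 : Φ p = 0 := funext h0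
  set A : (Fin N → ℂ) →L[ℂ] (Fin N → ℂ) := ContinuousLinearMap.pi fun j => ∑ l, J j l •
      (ContinuousLinearMap.proj l : (Fin N → ℂ) →L[ℂ] ℂ) with hA
  have hAd : HasFDerivAt Φ A p := hasFDerivAt_pi.2 hd
  have hAJ : (A : (Fin N → ℂ) →ₗ[ℂ] (Fin N → ℂ)) = Matrix.toLin' J := by
    refine LinearMap.ext fun u => funext fun j => ?_
    rw [Matrix.toLin'_apply]
    show (∑ l, J j l • (ContinuousLinearMap.proj l : (Fin N → ℂ) →L[ℂ] ℂ)) u = _
    simp only [ContinuousLinearMap.sum_apply, smul_apply, ContinuousLinearMap.proj_apply,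
      smul_eq_mul]
    rfl
  have hdet : A.det ≠ 0 := by
    show LinearMap.det (A : (Fin N → ℂ) →ₗ[ℂ] (Fin N → ℂ)) ≠ 0
    rw [hAJ, LinearMap.det_toLin']
    exact hJ
  set E := A.toContinuousLinearEquivOfDetNeZero hdet with hE
  have hΦd : HasFDerivAt Φ (E : (Fin N → ℂ) →L[ℂ] (Fin N → ℂ)) p := by
    rw [hE, ContinuousLinearMap.coe_toContinuousLinearEquivOfDetNeZero]
    exact hAd
  have hn : (2 : WithTop ℕ∞) ≠ 0 := by norm_num
  set Ψ := hΦc.localInverse hΦd hn with hΨ
  have hΨc : ContDiffAt ℂ 2 Ψ 0 := by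
    have := hΦc.to_localInverse hΦd hn
    rwa [hΦ0] at this
  have hΨ0 : Ψ 0 = p := by
    have := hΦc.localInverse_apply_image hΦd hn
    rwa [hΦ0] at this
  have hright : ∀ᶠ ζ in 𝓝 (0 : Fin N → ℂ), Φ (Ψ ζ) = ζ := by
    have := (hΦc.hasStrictFDerivAt' hΦd hn).eventually_right_inverse
    rwa [hΦ0] at this
  refine ⟨Ψ, hΨc, hΨ0, ?_⟩
  filter_upwards [hright] with s hs j
  exact congrFun hs j

/-- Compositions with nonvanishing functions. -/
theorem exists_compV {V : Type*} [NormedAddCommGroup V] [NormedSpace ℂ V] {A : V → ℂ}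
    (hA : ContDiffAt ℂ 2 A 0) (hA0 : A 0 ≠ 0) {B δ : ℝ} (hB : 0 ≤ B) (hδ : 0 < δ) :
    ∃ r C : ℝ, 0 < r ∧ 0 ≤ C ∧ ∀ (ρ : ℝ), ρ ≤ r → ∀ (D : ℕ) (s : (Fin D → ℝ) → V),
      ContDiff ℝ 2 s → (∀ θ, ‖s θ‖ ≤ ρ) →
      (∀ j θ, ‖fderiv ℝ s θ (Pi.single j 1)‖ ≤ ρ * B) →
      Good (fun θ => A (s θ)) ∧ (∀ θ, |Real.log ‖A (s θ)‖| ≤ C) ∧
        ∀ j θ, ‖lw (fun θ => A (s θ)) j θ‖ ≤ δ := by
  obtain ⟨C, hC⟩ := exists_nice hA hA0
  obtain ⟨r, hr, hball⟩ := Metric.eventually_nhds_iff.1 hC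
  set r' : ℝ := min (r / 2) (δ / (|C| * B + 1)) with hr'
  have hCB : 0 ≤ |C| * B := by positivity
  have hr'0 : 0 < r' := lt_min (by linarith) (div_pos hδ (by linarith))
  refine ⟨r', |C|, hr'0, abs_nonneg _, fun ρ hρ D s hs hsr hsB => ?_⟩
  have hlt : ∀ θ, dist (s θ) 0 < r := fun θ => by
    rw [dist_zero_right]
    have h1 := ((hsr θ).trans hρ).trans (min_le_left _ _)
    linarith
  have hgood : Good (fun θ => A (s θ)) := by
    refine ⟨?_, fun θ => (hball (hlt θ)).2.1⟩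
    rw [contDiff_iff_contDiffAt]
    intro θ
    exact ((hball (hlt θ)).1.restrict_scalars ℝ).comp θ hs.contDiffAt
  refine ⟨hgood, fun θ => (hball (hlt θ)).2.2.1.trans (le_abs_self C), fun j θ => ?_⟩
  obtain ⟨h1, h2, -, h3⟩ := hball (hlt θ)
  have hd : HasFDerivAt s (fderiv ℝ s θ) θ := ((hs.differentiable (by norm_num)) θ).hasFDerivAt
  have h4 : HasFDerivAt A ((fderiv ℂ A (s θ)).restrictScalars ℝ) (s θ) :=
    ((h1.differentiableAt (by norm_num)).hasFDerivAt).restrictScalars ℝ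
  have h5 := (h4.comp θ hd).fderiv
  have h6 : fderiv ℝ (fun θ => A (s θ)) θ (Pi.single j 1) =
      fderiv ℂ A (s θ) (fderiv ℝ s θ (Pi.single j 1)) :=
    DFunLike.congr_fun h5 (Pi.single j 1)
  unfold lw
  rw [h6, norm_div]
  have hpos : 0 < ‖A (s θ)‖ := norm_pos_iff.2 h2
  have hρB : ρ * B ≤ r' * B := mul_le_mul_of_nonneg_right hρ hB
  have h8 : ‖fderiv ℂ A (s θ) (fderiv ℝ s θ (Pi.single j 1))‖ ≤ ‖fderiv ℂ A (s θ)‖ * (r' * B) :=
    (ContinuousLinearMap.le_opNorm _ _).trans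
      (mul_le_mul_of_nonneg_left ((hsB j θ).trans hρB) (norm_nonneg _))
  calc _ ≤ ‖fderiv ℂ A (s θ)‖ * (r' * B) / ‖A (s θ)‖ := div_le_div_of_nonneg_right h8 hpos.le
    _ = ‖fderiv ℂ A (s θ)‖ / ‖A (s θ)‖ * (r' * B) := by ring
    _ ≤ |C| * (r' * B) := mul_le_mul_of_nonneg_right (h3.trans (le_abs_self C)) (by positivity)
    _ = r' * (|C| * B) := by ring
    _ ≤ δ / (|C| * B + 1) * (|C| * B) :=
        mul_le_mul_of_nonneg_right (min_le_right _ _) hCB
    _ ≤ δ := by
      rw [div_mul_eq_mul_div, div_le_iff₀ (by linarith)]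
      nlinarith

variable {K : Type*} [Field K] {q n : ℕ}

/-- the polynomial with the index of a node -/
def nd {D : Data K (n + 1) q} (t : D.Idx) (j : Fin (n + 1)) : Σ k, Fin (D.r k + 1) :=
  ⟨(t.1 j).1, (t.1 j).2.succ⟩

theorem nd_injective {D : Data K (n + 1) q} (t : D.Idx) : Function.Injective (nd t) := by
  intro i j h
  have h1 : (nd t i).1 = (nd t j).1 := congrArg Sigma.fst h
  exact t.2.injective h1

theorem nd_ne_zero {D : Data K (n + 1) q} (t : D.Idx) (j : Fin (n + 1)) (k : Fin q) :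
    (⟨k, 0⟩ : Σ k, Fin (D.r k + 1)) ≠ nd t j := by
  intro h
  unfold nd at h
  obtain ⟨h1, h2⟩ := Sigma.mk.inj_iff.1 h
  subst h1
  exact Fin.succ_ne_zero _ (eq_of_heq h2).symm

/-- Local coordinates at a transversal common zero, such that their product is the product of all
polynomials. -/
theorem exists_germN (D : Data K (n + 1) q) (σ : K →+* ℂ) (t : D.Idx) {p : Fin (n + 1) → ℂ}
    (h0 : ∀ j, MvPolynomial.eval₂ σ p (D.L (nd t j).1 (nd t j).2) = 0)
    (hJ : (Matrix.of fun j l => MvPolynomial.eval₂ σ p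
      (MvPolynomial.pderiv l (D.L (nd t j).1 (nd t j).2))).det ≠ 0)
    (hne : ∀ y : (Σ k, Fin (D.r k + 1)), (∀ j, y ≠ nd t j) →
      MvPolynomial.eval₂ σ p (D.L y.1 y.2) ≠ 0) :
    ∃ φ : (Fin (n + 1) → ℂ) → (Fin (n + 1) → ℂ), ContDiffAt ℂ 2 φ 0 ∧
      ∃ B : (Σ k, Fin (D.r k + 1)) → (Fin (n + 1) → ℂ) → ℂ, (∀ y, ContDiffAt ℂ 2 (B y) 0) ∧
        (∀ y, B y 0 ≠ 0) ∧ ∀ᶠ s in 𝓝 (0 : Fin (n + 1) → ℂ),
          ∏ y : (Σ k, Fin (D.r k + 1)), MvPolynomial.eval₂ σ (φ s) (D.L y.1 y.2) = ∏ j, s j ∧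
          (∀ j, MvPolynomial.eval₂ σ (φ s) (D.L (nd t j).1 (nd t j).2) = s j * B (nd t j) s) ∧
          ∀ y : (Σ k, Fin (D.r k + 1)), (∀ j, y ≠ nd t j) →
            MvPolynomial.eval₂ σ (φ s) (D.L y.1 y.2) = B y s := by
  classical
  set R : Finset (Σ k, Fin (D.r k + 1)) := Finset.univ.filter fun y => ∀ j, y ≠ nd t j with hR
  set G : (Fin (n + 1) → ℂ) → ℂ := fun x => ∏ y ∈ R, MvPolynomial.eval₂ σ x (D.L y.1 y.2) with hG
  have hGc : ContDiff ℂ 2 G := contDiff_prod fun y _ => contDiff_mv σ _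
  have hG0 : G p ≠ 0 := Finset.prod_ne_zero_iff.2 fun y hy => hne y (Finset.mem_filter.1 hy).2
  have hprod : ∀ x, ∏ y : (Σ k, Fin (D.r k + 1)), MvPolynomial.eval₂ σ x (D.L y.1 y.2) =
      (∏ j, MvPolynomial.eval₂ σ x (D.L (nd t j).1 (nd t j).2)) * G x := by
    intro x
    rw [← Finset.prod_filter_mul_prod_filter_not Finset.univ (fun y => ∀ j, y ≠ nd t j), mul_comm]
    congr 1
    refine (Finset.prod_image (g := nd t) (s := Finset.univ)
      (f := fun y : (Σ k, Fin (D.r k + 1)) => MvPolynomial.eval₂ σ x (D.L y.1 y.2))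
      fun i _ j _ h => nd_injective t h).symm.trans ?_ |>.symm
    refine Finset.prod_congr ?_ fun _ _ => rfl
    ext y
    simp only [Finset.mem_image, Finset.mem_univ, true_and, Finset.mem_filter, not_forall, not_not]
    constructor
    · rintro ⟨j, hj⟩
      exact ⟨j, hj.symm⟩
    · rintro ⟨j, hj⟩
      exact ⟨j, hj.symm⟩
  set g : Fin (n + 1) → (Fin (n + 1) → ℂ) → ℂ := fun j x =>
    MvPolynomial.eval₂ σ x (D.L (nd t j).1 (nd t j).2) with hg
  set f : Fin (n + 1) → (Fin (n + 1) → ℂ) → ℂ := fun j x => if j = 0 then g j x * G x else g j x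
    with hf
  have hgc : ∀ j, ContDiff ℂ 2 (g j) := fun j => contDiff_mv σ _
  have hfc : ∀ j, ContDiff ℂ 2 (f j) := by
    intro j
    by_cases h : j = 0
    · simp only [hf, if_pos h]
      exact (hgc j).mul hGc
    · simp only [hf, if_neg h]
      exact hgc j
  have hf0 : ∀ j, f j p = 0 := by
    intro j
    simp only [hf]
    split_ifs
    · rw [show g j p = 0 from h0 j, zero_mul]
    · exact h0 j
  set J0 : Matrix (Fin (n + 1)) (Fin (n + 1)) ℂ := Matrix.of fun j l => MvPolynomial.eval₂ σ p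
      (MvPolynomial.pderiv l (D.L (nd t j).1 (nd t j).2)) with hJ0
  set cc : Fin (n + 1) → ℂ := fun j => if j = 0 then G p else 1 with hcc
  have hfd : ∀ j, HasFDerivAt (f j) (∑ l, (Matrix.of fun j l => cc j * J0 j l) j l •
      (ContinuousLinearMap.proj l : (Fin (n + 1) → ℂ) →L[ℂ] ℂ)) p := by
    intro j
    have h1 := hasFDerivAt_mv σ (D.L (nd t j).1 (nd t j).2) p
    by_cases h : j = 0
    · simp only [hf, hcc, if_pos h]
      have h2 : HasFDerivAt G (fderiv ℂ G p) p := (hGc.differentiable (by norm_num) _).hasFDerivAt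
      refine (h1.mul h2).congr_fderiv ?_
      refine ContinuousLinearMap.ext fun u => ?_
      simp only [add_apply, smul_apply, smul_eq_mul, ContinuousLinearMap.sum_apply,
        ContinuousLinearMap.proj_apply, Matrix.of_apply]
      rw [h0 j, if_pos h, zero_mul, zero_add, Finset.mul_sum]
      exact Finset.sum_congr rfl fun l _ => by
        rw [hJ0, Matrix.of_apply]
        ring
    · simp only [hf, hcc, if_neg h, Matrix.of_apply, one_mul]
      exact h1
  have hdet : (Matrix.of fun j l => cc j * J0 j l).det ≠ 0 := by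
    rw [Matrix.det_mul_column]
    refine mul_ne_zero (Finset.prod_ne_zero_iff.2 fun j _ => ?_) hJ
    simp only [hcc]
    split_ifs
    · exact hG0
    · exact one_ne_zero
  obtain ⟨φ, hφc, hφ0, hφ⟩ := exists_inv hfc hf0 hfd hdet
  have hGφ : ContDiffAt ℂ 2 (fun s => G (φ s)) 0 :=
    ContDiffAt.comp (g := G) (0 : Fin (n + 1) → ℂ) hGc.contDiffAt hφc
  have hGφ0 : G (φ 0) ≠ 0 := by rw [hφ0]; exact hG0
  refine ⟨φ, hφc, fun y s => if y = nd t 0 then (G (φ s))⁻¹ else
    if ∃ j, y = nd t j then 1 else MvPolynomial.eval₂ σ (φ s) (D.L y.1 y.2), fun y => ?_,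
    fun y => ?_, ?_⟩
  · by_cases h : y = nd t 0
    · simp only [if_pos h]
      exact hGφ.inv hGφ0
    · by_cases h' : ∃ j, y = nd t j
      · simp only [if_neg h, if_pos h']
        exact contDiffAt_const
      · simp only [if_neg h, if_neg h']
        exact ContDiffAt.comp (g := fun x => MvPolynomial.eval₂ σ x (D.L y.1 y.2))
          (0 : Fin (n + 1) → ℂ) (contDiff_mv σ _).contDiffAt hφc
  · by_cases h : y = nd t 0
    · simp only [if_pos h]
      exact inv_ne_zero hGφ0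
    · by_cases h' : ∃ j, y = nd t j
      · simp only [if_neg h, if_pos h']
        exact one_ne_zero
      · simp only [if_neg h, if_neg h', hφ0]
        push Not at h'
        exact hne y h'
  · filter_upwards [hφ, hGφ.continuousAt.eventually_ne hGφ0] with s hs hs0
    have h1 : g 0 (φ s) * G (φ s) = s 0 := by
      have := hs 0
      simp only [hf, if_true] at this
      exact this
    have h2 : ∀ j, j ≠ 0 → g j (φ s) = s j := by
      intro j hj
      have := hs j
      simp only [hf, if_neg hj] at this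
      exact this
    refine ⟨?_, fun j => ?_, fun y hy => ?_⟩
    · rw [hprod]
      rw [Fin.prod_univ_succ, Fin.prod_univ_succ (f := s), ← h1]
      have h3 : ∀ j : Fin n, MvPolynomial.eval₂ σ (φ s) (D.L (nd t j.succ).1 (nd t j.succ).2) =
        s j.succ := fun j => h2 j.succ (Fin.succ_ne_zero j)
      rw [Finset.prod_congr rfl fun j _ => h3 j]
      show g 0 (φ s) * _ * G (φ s) = _
      ring
    · by_cases h : j = 0
      · subst h
        show g 0 (φ s) = s 0 * (if nd t 0 = nd t 0 then (G (φ s))⁻¹ else _)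
        rw [if_pos rfl, eq_mul_inv_iff_mul_eq₀ hs0]
        exact h1
      · show g j (φ s) = s j * (if nd t j = nd t 0 then (G (φ s))⁻¹ else
          if ∃ i, nd t j = nd t i then 1 else _)
        rw [if_neg fun h' => h (nd_injective t h'), if_pos ⟨j, rfl⟩, mul_one]
        exact h2 j h
    · show _ = (if y = nd t 0 then (G (φ s))⁻¹ else if ∃ j, y = nd t j then 1 else
        MvPolynomial.eval₂ σ (φ s) (D.L y.1 y.2))
      rw [if_neg (hy 0), if_neg (not_exists.2 hy)]

end Pool.Agent.Run7.h954.MX
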