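import Pool.Agent.Run7.h954.MX.Defs
set_option autoImplicit false

/-!
The symbols on the hypersurfaces `λ ∏ L = 1` are unramified.
-/

namespace Pool.Agent.Run7.h954.MX

open Pool.Agent.TH826.MK (KQ symb Unramified Torus)

open scoped WithZero

open Pool.Agent.TH826.MK

open Pool.Agent.N65.TL

open Pool.Agent.Run7.h954.FP (mem_of_pow quot_close)

variable {K : Type*} [Field K] {q : ℕ}

/-- at a pole the units `u_{k,i}` of one of the groups are one-units -/
theorem exists_one_unit {L : Type*} [Field L] {v : Valuation L ℤᵐ⁰} {φ : K →+* L} {n : ℕ}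
    {D : Data K (n + 1) q} (hD : D.Adm) {x : Fin (n + 1) → L} (hx : ¬ ∀ j, v (x j) ≤ 1)
    {S : Fin (n + 1) → Fin q} (hS : Function.Injective S)
    (h0 : ∀ k i, MvPolynomial.eval₂ φ x (D.L k i) ≠ 0) :
    ∃ l, ∀ i : Fin (D.r (S l)), ∃ e : L, (∃ k : ℕ, k ≠ 0 ∧ e ^ k = 1) ∧
      v ((MvPolynomial.eval₂ φ x (D.L (S l) i.succ) ^ D.a (S l) 0 /
        MvPolynomial.eval₂ φ x (D.L (S l) 0) ^ D.a (S l) i.succ) ^ 1 - e) < 1 := by
  obtain ⟨l, hl⟩ := exists_group (φ := φ) hD hx hS
  refine ⟨l, fun i => ?_⟩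
  have hG := (hl 0).2
  exact quot_close (n := 1) (x := MvPolynomial.eval₂ φ x (D.G (S l))) (e := 1) (e' := 1)
    (by rw [pow_one]; exact (hl i.succ).1) (by rw [pow_one]; exact (hl 0).1)
    ⟨1, one_ne_zero, one_pow _⟩ ⟨1, one_ne_zero, one_pow _⟩ hG (h0 _ _)

/-- a product of elements of value at most one which is a unit -/
theorem prod_unit' {L : Type*} [Field L] {ι : Type*} [Fintype ι] (v : Valuation L ℤᵐ⁰)
    {x : ι → L} (hx : ∀ i, v (x i) ≤ 1) {c : L} (hc : v c ≤ 1) (h : v (c * ∏ i, x i) = 1)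
    (i : ι) : v (x i) = 1 := by
  classical
  refine le_antisymm (hx i) ?_
  rw [← h, map_mul, map_prod, ← Finset.mul_prod_erase Finset.univ _ (Finset.mem_univ i)]
  calc v c * (v (x i) * ∏ j ∈ Finset.univ.erase i, v (x j)) ≤ 1 * (v (x i) * 1) :=
        mul_le_mul' hc (mul_le_mul' le_rfl (Finset.prod_le_one' fun j _ => hx j))
    _ = v (x i) := by rw [one_mul, mul_one]

theorem ev_eq {N : ℕ} {L : Type*} [CommRing L] (f : MvPolynomial (Fin N) K →+* L)
    (P : MvPolynomial (Fin N) K) :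
    f P = MvPolynomial.eval₂ (f.comp MvPolynomial.C) (fun j => f (MvPolynomial.X j)) P := by
  have h : f = MvPolynomial.eval₂Hom (f.comp MvPolynomial.C) (fun j => f (MvPolynomial.X j)) := by
    refine MvPolynomial.ringHom_ext (fun c => ?_) fun j => ?_
    · simp
    · simp
  conv_lhs => rw [h]
  rfl

/-- The symbols are unramified. -/
theorem Data.unram {n : ℕ} {D : Data K (n + 1) q} (hD : D.Adm) {lam : K}
    (hlam : IsIntegral ℤ lam) {L : Type*} [Field L] (f : D.XRing lam →+* L) (t : D.Idx) :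
    KQ.map _ f (D.sym lam t) ∈ Unramified L _ := by
  classical
  unfold Data.sym
  rw [KQ.map_symb]
  unfold Unramified
  simp only [Submodule.mem_iInf]
  intro v _
  set φ : K →+* L := f.comp (D.xcst lam) with hφ
  set x : Fin (n + 1) → L := fun j => f (D.xmk lam (MvPolynomial.X j)) with hx
  have hev : ∀ P : MvPolynomial (Fin (n + 1)) K, f (D.xmk lam P) = MvPolynomial.eval₂ φ x P :=
    fun P => ev_eq (f.comp (D.xmk lam)) P
  have hLu : ∀ k i, ((Units.map (f : D.XRing lam →* L) (D.Lu lam k i) : Lˣ) : L) =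
      MvPolynomial.eval₂ φ x (D.L k i) := fun k i => hev _
  have hL0 : ∀ k i, MvPolynomial.eval₂ φ x (D.L k i) ≠ 0 := fun k i => by
    rw [← hLu]
    exact Units.ne_zero _
  have hu : ∀ y : (Σ k, Fin (D.r k)), ((Units.map (f : D.XRing lam →* L) (D.u lam y) : Lˣ) : L) =
      MvPolynomial.eval₂ φ x (D.L y.1 y.2.succ) ^ D.a y.1 0 /
        MvPolynomial.eval₂ φ x (D.L y.1 0) ^ D.a y.1 y.2.succ := by
    intro y
    unfold Data.u
    rw [_root_.map_div, map_pow, map_pow, Units.val_div_eq_div_val, Units.val_pow_eq_pow_val,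
      Units.val_pow_eq_pow_val, hLu, hLu]
  by_cases hp : ∀ j, v (x j) ≤ 1
  · have hle : ∀ y : (Σ k, Fin (D.r k + 1)), v (MvPolynomial.eval₂ φ x (D.L y.1 y.2)) ≤ 1 :=
      fun y => val_int (hD.intL y.1 y.2) hp
    have hlamv : v (φ lam) ≤ 1 := val_le_one_of_integral v (map_isIntegral_int φ hlam)
    have heq : v (φ lam * ∏ y : (Σ k, Fin (D.r k + 1)),
        MvPolynomial.eval₂ φ x (D.L y.1 y.2)) = 1 := by
      have h1 := congrArg f (D.xmk_eqn lam)
      rw [map_one, map_mul, map_prod] at h1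
      simp only [hev] at h1
      rw [← map_one v]
      exact congrArg v h1
    have hone : ∀ k i, v (MvPolynomial.eval₂ φ x (D.L k i)) = 1 := fun k i =>
      prod_unit' v hle hlamv heq ⟨k, i⟩
    refine Submodule.subset_span ⟨_, fun j => ?_, rfl⟩
    rw [hu, map_div₀, map_pow, map_pow, hone, hone, one_pow, one_pow, div_one]
  · obtain ⟨l, hl⟩ := exists_one_unit (φ := φ) hD hp (S := fun j => (t.1 j).1) t.2.injective hL0
    obtain ⟨e, he, h1⟩ := hl (t.1 l).2
    refine mem_of_pow v _ l one_pos he ?_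
    rw [hu]
    exact h1

end Pool.Agent.Run7.h954.MX
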